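import Mathlib

/-! Numbers with digits `0, 1` in base `8`. -/

set_option autoImplicit false
open Filter Topology Metric Set

namespace Pool.Agent.X202.QC

/-- the number with digits `1` at the positions in `S`, base `8` -/
noncomputable def Y (S : Finset ℤ) : ℝ := ∑ i ∈ S, (8 : ℝ) ^ i

theorem Y_nonneg (S : Finset ℤ) : 0 ≤ Y S := Finset.sum_nonneg fun i _ => by positivity

theorem Y_le (S : Finset ℤ) : ∀ q : ℤ, (∀ i ∈ S, i < q) → Y S ≤ (8 : ℝ) ^ q / 7 := by
  induction S using Finset.induction_on_max with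
  | empty =>
    intro q _
    simp only [Y, Finset.sum_empty]
    positivity
  | insert m S hm ih =>
    intro q hq
    have h1 := ih m hm
    have hmS : m ∉ S := fun h => lt_irrefl _ (hm m h)
    have e : Y (insert m S) = (8 : ℝ) ^ m + Y S := by
      unfold Y; rw [Finset.sum_insert hmS]
    rw [e]
    have h2 : m + 1 ≤ q := hq m (Finset.mem_insert_self _ _)
    have h3 : (8 : ℝ) ^ (m + 1) ≤ (8 : ℝ) ^ q := zpow_le_zpow_right₀ (by norm_num) h2
    rw [zpow_add_one₀ (by norm_num)] at h3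
    linarith

theorem Y_split (S : Finset ℤ) (q : ℤ) :
    Y S = Y (S.filter fun i => q ≤ i) + Y (S.filter fun i => ¬ q ≤ i) := by
  unfold Y
  rw [Finset.sum_filter_add_sum_filter_not]

theorem Y_low (S : Finset ℤ) (q : ℤ) :
    0 ≤ Y (S.filter fun i => ¬ q ≤ i) ∧ Y (S.filter fun i => ¬ q ≤ i) ≤ (8 : ℝ) ^ q / 7 :=
  ⟨Y_nonneg _, Y_le _ _ fun i hi => not_le.1 (Finset.mem_filter.1 hi).2⟩

theorem Y_gap_aux {S S' : Finset ℤ} {m : ℤ} (hm : m ∈ S) (hm' : m ∉ S')
    (h : ∀ i, m < i → (i ∈ S ↔ i ∈ S')) : 6 / 7 * (8 : ℝ) ^ m ≤ Y S - Y S' := by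
  have e1 := Y_split S (m + 1)
  have e2 := Y_split S' m
  have e3 : (S.filter fun i => m + 1 ≤ i) = S'.filter fun i => m ≤ i := by
    ext i
    rw [Finset.mem_filter, Finset.mem_filter]
    constructor
    · rintro ⟨h1, h2⟩
      exact ⟨(h i (by omega)).1 h1, by omega⟩
    · rintro ⟨h1, h2⟩
      have h3 : i ≠ m := fun h => hm' (h ▸ h1)
      exact ⟨(h i (by omega)).2 h1, by omega⟩
  have e4 : (8 : ℝ) ^ m ≤ Y (S.filter fun i => ¬ m + 1 ≤ i) := by
    unfold Y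
    apply Finset.single_le_sum (f := fun i : ℤ => (8 : ℝ) ^ i) (fun i _ => by positivity)
    rw [Finset.mem_filter]
    exact ⟨hm, by omega⟩
  have e5 := (Y_low S' m).2
  rw [e3] at e1
  linarith

theorem Y_gap {S S' : Finset ℤ} {p : ℤ}
    (h : (S.filter fun i => p ≤ i) ≠ S'.filter fun i => p ≤ i) :
    6 / 7 * (8 : ℝ) ^ p ≤ |Y S - Y S'| := by
  set D : Finset ℤ := symmDiff (S.filter fun i => p ≤ i) (S'.filter fun i => p ≤ i) with hD
  have hne : D.Nonempty := by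
    rw [Finset.nonempty_iff_ne_empty]
    intro he
    exact h (symmDiff_eq_bot.1 he)
  set m := D.max' hne with hm
  have hmD : m ∈ D := D.max'_mem hne
  have hpm : p ≤ m := by
    rw [hD, Finset.mem_symmDiff] at hmD
    rcases hmD with h1 | h1
    · exact (Finset.mem_filter.1 h1.1).2
    · exact (Finset.mem_filter.1 h1.1).2
  have hab : ∀ i, m < i → (i ∈ S ↔ i ∈ S') := by
    intro i hi
    have h1 : i ∉ D := fun h2 => absurd (D.le_max' i h2) (not_le.2 hi)
    rw [hD, Finset.mem_symmDiff, Finset.mem_filter, Finset.mem_filter] at h1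
    have h2 : p ≤ i := by omega
    tauto
  have h8 : (8 : ℝ) ^ p ≤ (8 : ℝ) ^ m := zpow_le_zpow_right₀ (by norm_num) hpm
  rw [hD, Finset.mem_symmDiff, Finset.mem_filter, Finset.mem_filter] at hmD
  rcases hmD with h1 | h1
  · have := Y_gap_aux h1.1.1 (fun h2 => h1.2 ⟨h2, hpm⟩) hab
    have := le_abs_self (Y S - Y S')
    linarith
  · have := Y_gap_aux h1.1.1 (fun h2 => h1.2 ⟨h2, hpm⟩) (fun i hi => (hab i hi).symm)
    have := neg_abs_le (Y S - Y S')
    linarith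

/-- a set is covered by `N` sets of diameter at most `r` -/
def Covers (A : Set ℂ) (r : ℝ) (N : ℕ) : Prop :=
  ∃ t : Fin N → Set ℂ, (∀ i, Metric.ediam (t i) ≤ ENNReal.ofReal r) ∧ A ⊆ ⋃ i, t i

theorem covers_of_finset {ι : Type*} [DecidableEq ι] (s : Finset ι) (t : ι → Set ℂ) {A : Set ℂ}
    {r : ℝ} (h : ∀ i ∈ s, Metric.ediam (t i) ≤ ENNReal.ofReal r) (hA : A ⊆ ⋃ i ∈ s, t i) :
    Covers A r s.card := by
  refine ⟨fun i => t (s.equivFin.symm i), fun i => h _ (s.equivFin.symm i).2, fun z hz => ?_⟩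
  obtain ⟨i, hi, hzi⟩ := mem_iUnion₂.1 (hA hz)
  rw [mem_iUnion]
  refine ⟨s.equivFin ⟨i, hi⟩, ?_⟩
  rw [Equiv.symm_apply_apply]
  exact hzi

/-- upper bound for the covering numbers -/
theorem digits_cover {E : Set ℂ} (hE : ∀ z ∈ E, ∃ S : Finset ℤ, z = ((Y S : ℝ) : ℂ)) :
    ∀ x ∈ E, ∀ r R : ℝ, 0 < r → r < R →
      ∃ N : ℕ, (N : ℝ) ≤ 8 * (R / r) ^ (1 / 3 : ℝ) ∧ Covers (E ∩ ball x R) r N := by
  classical
  intro x hx r R hr hrR
  have hR : 0 < R := hr.trans hrR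
  obtain ⟨q, hq1, hq2⟩ := exists_mem_Ico_zpow hr (show (1 : ℝ) < 8 by norm_num)
  obtain ⟨p, hp1, hp2⟩ := exists_mem_Ico_zpow hR (show (1 : ℝ) < 8 by norm_num)
  have hqp : q ≤ p := by
    by_contra hc
    have h1 : p + 1 ≤ q := by omega
    have h2 : (8 : ℝ) ^ (p + 1) ≤ (8 : ℝ) ^ q := zpow_le_zpow_right₀ (by norm_num) h1
    linarith
  obtain ⟨n, hn⟩ := Int.eq_ofNat_of_zero_le (show 0 ≤ p - q by omega)
  obtain ⟨S0, hS0⟩ := hE x hx
  -- cells
  set t : Finset ℤ → Set ℂ := fun V => {z | ∃ S : Finset ℤ, z = ((Y S : ℝ) : ℂ) ∧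
    (S.filter fun i => q ≤ i) = (S0.filter fun i => p + 2 ≤ i) ∪ V} with ht
  set F : Finset (Finset ℤ) := (Finset.Ico q (p + 2)).powerset with hF
  have hcard : F.card = 2 ^ (n + 2) := by
    rw [hF, Finset.card_powerset, Int.card_Ico]
    congr 1
    omega
  refine ⟨F.card, ?_, covers_of_finset F t (fun V _ => ?_) ?_⟩
  · rw [hcard]
    have h1 : (8 : ℝ) ^ (n : ℤ) ≤ 8 * (R / r) := by
      have h2 : (8 : ℝ) ^ p ≤ R := hp1
      have h3 : r < (8 : ℝ) ^ (q + 1) := hq2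
      have h4 : p = (q + 1) + (n : ℤ) - 1 := by omega
      rw [h4, zpow_sub_one₀ (by norm_num), zpow_add₀ (by norm_num)] at h2
      have h5 : r * (8 : ℝ) ^ (n : ℤ) ≤ 8 * R := by
        have h6 : r * (8 : ℝ) ^ (n : ℤ) ≤ (8 : ℝ) ^ (q + 1) * (8 : ℝ) ^ (n : ℤ) :=
          mul_le_mul_of_nonneg_right h3.le (by positivity)
        linarith
      have h7 : (8 : ℝ) ^ (n : ℤ) ≤ 8 * R / r := by
        rw [le_div_iff₀ hr]; linarith
      calc (8 : ℝ) ^ (n : ℤ) ≤ 8 * R / r := h7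
        _ = 8 * (R / r) := by ring
    have h2 : ((8 : ℝ) ^ (n : ℤ)) ^ (1 / 3 : ℝ) = 2 ^ n := by
      rw [zpow_natCast, show (8 : ℝ) = 2 ^ (3 : ℕ) by norm_num, ← pow_mul, mul_comm, pow_mul,
        ← Real.rpow_natCast ((2 : ℝ) ^ n) 3, ← Real.rpow_mul (by positivity)]
      norm_num
    have h3 : (2 : ℝ) ^ n ≤ 2 * (R / r) ^ (1 / 3 : ℝ) := by
      rw [← h2]
      calc ((8 : ℝ) ^ (n : ℤ)) ^ (1 / 3 : ℝ) ≤ (8 * (R / r)) ^ (1 / 3 : ℝ) :=
            Real.rpow_le_rpow (by positivity) h1 (by norm_num)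
        _ = (8 : ℝ) ^ (1 / 3 : ℝ) * (R / r) ^ (1 / 3 : ℝ) :=
            Real.mul_rpow (by norm_num) (by positivity)
        _ = 2 * (R / r) ^ (1 / 3 : ℝ) := by
            congr 1
            rw [show (8 : ℝ) = 2 ^ (3 : ℝ) by norm_num, ← Real.rpow_mul (by norm_num)]
            norm_num
    push_cast
    rw [pow_add]
    linarith
  · apply Metric.ediam_le
    rintro z ⟨S, rfl, hS⟩ w ⟨S', rfl, hS'⟩
    rw [edist_dist]
    apply ENNReal.ofReal_le_ofReal
    rw [Complex.dist_eq, ← Complex.ofReal_sub, Complex.norm_real, Real.norm_eq_abs]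
    have a1 := Y_split S q
    have a2 := Y_split S' q
    have a3 := Y_low S q
    have a4 := Y_low S' q
    rw [hS] at a1
    rw [hS'] at a2
    rw [abs_le]
    constructor <;> linarith [a3.1, a3.2, a4.1, a4.2]
  · rintro z ⟨hzE, hzR⟩
    obtain ⟨S, hS⟩ := hE z hzE
    rw [mem_iUnion₂]
    refine ⟨S.filter fun i => q ≤ i ∧ i < p + 2, ?_, S, hS, ?_⟩
    · rw [hF, Finset.mem_powerset]
      intro i hi
      have := (Finset.mem_filter.1 hi).2
      rw [Finset.mem_Ico]; exact this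
    · have hsame : (S.filter fun i => p + 2 ≤ i) = S0.filter fun i => p + 2 ≤ i := by
        by_contra hne
        have h1 := Y_gap hne
        rw [mem_ball, hS, hS0, Complex.dist_eq, ← Complex.ofReal_sub, Complex.norm_real,
          Real.norm_eq_abs] at hzR
        have h2 : (8 : ℝ) ^ (p + 2) = 8 * (8 : ℝ) ^ (p + 1) := by
          rw [show p + 2 = (p + 1) + 1 by ring, zpow_add_one₀ (by norm_num)]; ring
        rw [h2] at h1
        have h3 : R < (8 : ℝ) ^ (p + 1) := hp2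
        have h4 : (0 : ℝ) < (8 : ℝ) ^ (p + 1) := by positivity
        linarith
      rw [← hsame]
      ext i
      simp only [Finset.mem_union, Finset.mem_filter]
      constructor
      · rintro ⟨h1, h2⟩
        by_cases h3 : p + 2 ≤ i
        · exact Or.inl ⟨h1, h3⟩
        · exact Or.inr ⟨h1, h2, by omega⟩
      · rintro (⟨h1, h2⟩ | ⟨h1, h2, _⟩)
        · exact ⟨h1, by omega⟩
        · exact ⟨h1, h2⟩

end Pool.Agent.X202.QC
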