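import Pool.Agent.X202.QC.Rad

/-! Lipschitz maps with the pointwise condition are quasiconformal. -/

set_option autoImplicit false
open Complex MeasureTheory Filter Topology Metric Set
open scoped ComplexConjugate NNReal ContDiff

namespace Pool.Agent.X202.QC

theorem weak_real {f : ℂ → ℝ} {L : ℝ≥0} (hf : LipschitzWith L f) {φ : ℂ → ℝ}
    (hφ : ContDiff ℝ ∞ φ) (hc : HasCompactSupport φ) (v : ℂ) :
    ∫ z, lineDeriv ℝ f z v * φ z = - ∫ z, fderiv ℝ φ z v * f z := by
  obtain ⟨C, hC⟩ := ContDiff.lipschitzWith_of_hasCompactSupport hc hφ (by simp)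
  rw [hf.integral_lineDeriv_mul_eq hC hc v, ← integral_neg]
  congr 1
  funext z
  rw [lineDeriv_neg, (hφ.differentiable (by simp) z).lineDeriv_eq_fderiv]
  ring

theorem weak_complex {f : ℂ → ℂ} {L : ℝ≥0} (hf : LipschitzWith L f)
    {φ : ℂ → ℝ} (hφ : ContDiff ℝ ∞ φ) (hc : HasCompactSupport φ) (v : ℂ) :
    ∫ z, (fderiv ℝ φ z v) • f z = - ∫ z, φ z • fderiv ℝ f z v := by
  have hfd : Continuous fun z => fderiv ℝ φ z v := by
    have := hφ.continuous_fderiv (by simp)
    fun_prop
  have hfc : HasCompactSupport fun z => fderiv ℝ φ z v := by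
    exact (hc.fderiv ℝ).comp_left (g := fun D : ℂ →L[ℝ] ℝ => D v) (by simp)
  have i1 : Integrable fun z => (fderiv ℝ φ z v) • f z :=
    (hfd.smul hf.continuous).integrable_of_hasCompactSupport hfc.smul_right
  have hb : ∀ z, ‖fderiv ℝ f z‖ ≤ L := fun z => norm_fderiv_le_of_lipschitz ℝ hf
  have hm : Measurable fun z => fderiv ℝ f z v := measurable_fderiv_apply_const ℝ f v
  have i2 : Integrable fun z => φ z • fderiv ℝ f z v := by
    have h1 : Integrable fun z => ‖φ z‖ * (L * ‖v‖) :=
      (hφ.continuous.integrable_of_hasCompactSupport hc).norm.mul_const _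
    refine h1.mono' ?_ (Eventually.of_forall fun z => ?_)
    · exact (hφ.continuous.measurable.smul hm).aestronglyMeasurable
    · rw [norm_smul]
      apply mul_le_mul_of_nonneg_left _ (norm_nonneg _)
      exact ((fderiv ℝ f z).le_opNorm v).trans (mul_le_mul_of_nonneg_right (hb z) (norm_nonneg _))
  have hae : ∀ᵐ z, DifferentiableAt ℝ f z := hf.ae_differentiableAt
  have part : ∀ P : ℂ →L[ℝ] ℝ, ‖P‖ ≤ 1 →
      ∫ z, P ((fderiv ℝ φ z v) • f z) = - ∫ z, P (φ z • fderiv ℝ f z v) := by
    intro P hP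
    have hPf : LipschitzWith L fun z => P (f z) := by
      have h1 : LipschitzWith 1 P := by
        apply LipschitzWith.of_dist_le_mul
        intro x y
        rw [dist_eq_norm, dist_eq_norm, ← map_sub]
        have := P.le_opNorm (x - y)
        have h2 : ‖P‖ * ‖x - y‖ ≤ 1 * ‖x - y‖ := mul_le_mul_of_nonneg_right hP (norm_nonneg _)
        simpa using this.trans h2
      have := h1.comp hf
      rwa [one_mul] at this
    have h1 := weak_real hPf hφ hc v
    have h2 : ∫ z, lineDeriv ℝ (fun z => P (f z)) z v * φ z = ∫ z, P (φ z • fderiv ℝ f z v) := by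
      apply integral_congr_ae
      filter_upwards [hae] with z hz
      have h3 : HasFDerivAt (fun z => P (f z)) (P.comp (fderiv ℝ f z)) z :=
        P.hasFDerivAt.comp z hz.hasFDerivAt
      rw [h3.hasLineDerivAt v |>.lineDeriv, map_smul, smul_eq_mul, mul_comm]
      rfl
    rw [← h2, h1, neg_neg]
    congr 1
    funext z
    rw [map_smul, smul_eq_mul]
  apply Complex.ext
  · have h1 := part Complex.reCLM (by simp)
    rw [Complex.reCLM.integral_comp_comm i1, Complex.reCLM.integral_comp_comm i2] at h1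
    simpa using h1
  · have h1 := part Complex.imCLM (by simp)
    rw [Complex.imCLM.integral_comp_comm i1, Complex.imCLM.integral_comp_comm i2] at h1
    simpa using h1

theorem memLp_lip {f : ℂ → ℂ} {L : ℝ≥0} (hf : LipschitzWith L f) {S : Set ℂ} (hS : IsCompact S) :
    MemLp f 2 (volume.restrict S) ∧ MemLp (fderiv ℝ f) 2 (volume.restrict S) := by
  have hfin : IsFiniteMeasure (volume.restrict S) := ⟨by
    simpa using hS.measure_lt_top (μ := volume)⟩
  constructor
  · obtain ⟨C, hC⟩ := hS.exists_bound_of_continuousOn hf.continuous.continuousOn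
    refine MemLp.of_bound hf.continuous.aestronglyMeasurable C ?_
    rw [ae_restrict_iff' hS.isClosed.measurableSet]
    exact Eventually.of_forall hC
  · exact MemLp.of_bound (measurable_fderiv ℝ f).aestronglyMeasurable L
      (Eventually.of_forall fun z => norm_fderiv_le_of_lipschitz ℝ hf)

theorem Q.fderiv {K : ℝ} {f : ℂ → ℂ} {z : ℂ} (h : Q K f z) :
    ‖fderiv ℝ f z‖ ^ 2 ≤ K * (fderiv ℝ f z).det := by
  obtain ⟨D, h1, h2⟩ := h
  rw [h1.fderiv]; exact h2

end Pool.Agent.X202.QC
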