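import Pool.Agent.X202.QC.Pts
import Pool.Agent.X202.QC.Weak

/-! Conclusion. -/

set_option autoImplicit false
open Complex MeasureTheory Filter Topology Metric Set
open scoped ComplexConjugate NNReal

namespace Pool.Agent.X202.QC

/-- lower bound for the exponent -/
theorem exponent {A : Set ℂ} {σ : ℕ → ℝ} (hσ : ∀ m, 0 < σ m) {b : ℕ → ℂ}
    (hA : ∀ m (ε : ℕ → Bool), b m + ((σ m : ℝ) : ℂ) * ((Pt (1 / 6) m ε : ℝ) : ℂ) ∈ A)
    {α C : ℝ} (h : ∀ x ∈ A, ∀ r R : ℝ, 0 < r → r < R →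
      ∃ N : ℕ, (N : ℝ) ≤ C * (R / r) ^ α ∧ Covers (A ∩ ball x R) r N) (hC : 0 < C) :
    3 / 8 ≤ α := by
  by_contra hα
  rw [not_le] at hα
  have key : ∀ m : ℕ, (2 : ℝ) ^ m ≤ C * (4 * ((6 : ℝ) ^ (3 / 8 : ℝ)) ^ m) := by
    intro m
    set x : ℂ := b m + ((σ m : ℝ) : ℂ) * ((Pt (1 / 6) m (fun _ => false) : ℝ) : ℂ) with hx
    have hs := hσ m
    have h6 : (0 : ℝ) < (1 / 6 : ℝ) ^ m := by positivity
    have h61 : (1 / 6 : ℝ) ^ m ≤ 1 := pow_le_one₀ (by norm_num) (by norm_num)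
    obtain ⟨N, hN, t, ht1, ht2⟩ := h x (hA m _) (σ m * (1 / 6) ^ m / 2) (2 * σ m) (by positivity)
      (by nlinarith)
    -- the points
    set y : (Fin m → Bool) → (ℕ → Bool) := fun ε i => if h : i < m then ε ⟨i, h⟩ else false with hy
    have hmem : ∀ ε : Fin m → Bool, ∃ i, b m + ((σ m : ℝ) : ℂ) * ((Pt (1 / 6) m (y ε) : ℝ) : ℂ) ∈ t i := by
      intro ε
      have h1 : b m + ((σ m : ℝ) : ℂ) * ((Pt (1 / 6) m (y ε) : ℝ) : ℂ) ∈ A ∩ ball x (2 * σ m) := by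
        refine ⟨hA m _, ?_⟩
        rw [mem_ball, dist_eq_norm]
        have e : b m + ((σ m : ℝ) : ℂ) * ((Pt (1 / 6) m (y ε) : ℝ) : ℂ) - x =
            ((σ m * (Pt (1 / 6) m (y ε) - Pt (1 / 6) m (fun _ => false)) : ℝ) : ℂ) := by
          rw [hx]; push_cast; ring
        rw [e, Complex.norm_real, Real.norm_eq_abs, abs_mul, abs_of_pos hs]
        have a1 := Pt_abs (x := 1 / 6) (by norm_num) le_rfl m (y ε)
        have a2 := Pt_abs (x := 1 / 6) (by norm_num) le_rfl m (fun _ => false)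
        have a3 := abs_sub (Pt (1 / 6) m (y ε)) (Pt (1 / 6) m (fun _ => false))
        nlinarith
      exact mem_iUnion.1 (ht2 h1)
    choose i hi using hmem
    have hinj : Function.Injective i := by
      intro ε ε' hee
      by_contra hne
      have h1 : ∃ k < m, y ε k ≠ y ε' k := by
        obtain ⟨k, hk⟩ := Function.ne_iff.1 hne
        refine ⟨k, k.2, ?_⟩
        simp only [hy]
        rw [dif_pos k.2, dif_pos k.2]
        exact hk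
      have h2 := Pt_sep m _ _ h1
      have h3 := hi ε'
      rw [← hee] at h3
      have h4 := (Metric.edist_le_ediam_of_mem (hi ε) h3).trans (ht1 (i ε))
      rw [edist_dist, ENNReal.ofReal_le_ofReal_iff (by positivity), dist_eq_norm] at h4
      have e : b m + ((σ m : ℝ) : ℂ) * ((Pt (1 / 6) m (y ε) : ℝ) : ℂ) -
          (b m + ((σ m : ℝ) : ℂ) * ((Pt (1 / 6) m (y ε') : ℝ) : ℂ)) =
            ((σ m * (Pt (1 / 6) m (y ε) - Pt (1 / 6) m (y ε')) : ℝ) : ℂ) := by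
        push_cast; ring
      rw [e, Complex.norm_real, Real.norm_eq_abs, abs_mul, abs_of_pos hs] at h4
      nlinarith
    have hcard := Fintype.card_le_of_injective i hinj
    rw [Fintype.card_fun, Fintype.card_bool, Fintype.card_fin, Fintype.card_fin] at hcard
    have h2N : (2 : ℝ) ^ m ≤ N := by exact_mod_cast hcard
    have e1 : 2 * σ m / (σ m * (1 / 6) ^ m / 2) = 4 * 6 ^ m := by
      rw [one_div, inv_pow]; field_simp; ring
    rw [e1] at hN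
    have h46 : (1 : ℝ) ≤ 4 * 6 ^ m := by
      have : (1 : ℝ) ≤ 6 ^ m := one_le_pow₀ (by norm_num)
      linarith
    have h5 : (4 * 6 ^ m : ℝ) ^ α ≤ 4 * ((6 : ℝ) ^ (3 / 8 : ℝ)) ^ m := by
      calc (4 * 6 ^ m : ℝ) ^ α ≤ (4 * 6 ^ m : ℝ) ^ (3 / 8 : ℝ) :=
            Real.rpow_le_rpow_of_exponent_le h46 hα.le
        _ = (4 : ℝ) ^ (3 / 8 : ℝ) * ((6 : ℝ) ^ m) ^ (3 / 8 : ℝ) :=
            Real.mul_rpow (by norm_num) (by positivity)
        _ ≤ 4 * ((6 : ℝ) ^ (3 / 8 : ℝ)) ^ m := by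
            apply mul_le_mul _ (le_of_eq _) (by positivity) (by norm_num)
            · calc (4 : ℝ) ^ (3 / 8 : ℝ) ≤ (4 : ℝ) ^ (1 : ℝ) :=
                    Real.rpow_le_rpow_of_exponent_le (by norm_num) (by norm_num)
                _ = 4 := Real.rpow_one _
            · rw [← Real.rpow_natCast, ← Real.rpow_natCast, ← Real.rpow_mul (by norm_num),
                ← Real.rpow_mul (by norm_num), mul_comm]
    calc (2 : ℝ) ^ m ≤ N := h2N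
      _ ≤ _ := hN
      _ ≤ _ := mul_le_mul_of_nonneg_left h5 hC.le
  -- contradiction
  set ρ : ℝ := (6 : ℝ) ^ (3 / 8 : ℝ) with hρ
  have hρ0 : 0 < ρ := by positivity
  have hρ2 : ρ < 2 := by
    have h1 : ρ ^ 8 < 2 ^ 8 := by
      have : ρ ^ 8 = 6 ^ 3 := by
        rw [hρ, ← Real.rpow_natCast, ← Real.rpow_mul (by norm_num)]
        norm_num
      rw [this]; norm_num
    exact lt_of_pow_lt_pow_left₀ 8 (by norm_num) h1
  have ht : Tendsto (fun m : ℕ => (2 / ρ) ^ m) atTop atTop :=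
    tendsto_pow_atTop_atTop_of_one_lt (by rw [one_lt_div hρ0]; exact hρ2)
  obtain ⟨m, hm⟩ := (ht.eventually_gt_atTop (4 * C)).exists
  have := key m
  rw [div_pow, lt_div_iff₀ (by positivity)] at hm
  linarith

theorem main : ∃ (f : ℂ ≃ₜ ℂ) (E : Set ℂ), LipschitzWith 13 f ∧ (∀ᵐ z, Q 5 f z) ∧
    (∀ x ∈ E, ∀ r R : ℝ, 0 < r → r < R →
      ∃ N : ℕ, (N : ℝ) ≤ 8 * (R / r) ^ (1 / 3 : ℝ) ∧ Covers (E ∩ ball x R) r N) ∧
    ∀ α C : ℝ, 0 < C → (∀ x ∈ f '' E, ∀ r R : ℝ, 0 < r → r < R →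
      ∃ N : ℕ, (N : ℝ) ≤ C * (R / r) ^ α ∧ Covers (f '' E ∩ ball x R) r N) → 3 / 8 ≤ α := by
  -- Lipschitz constants and scales
  have h1 := fun m => (Gm_nice m).lip
  choose L hL0 hL using h1
  have h2 : ∀ m, ∃ n : ℕ, (8⁻¹ : ℝ) ^ n * L m ≤ 1 := by
    intro m
    obtain ⟨n, hn⟩ := exists_pow_lt_of_lt_one (show (0 : ℝ) < 1 / (L m + 1) by
      have := hL0 m; positivity) (show (8⁻¹ : ℝ) < 1 by norm_num)
    refine ⟨n, ?_⟩
    have h3 := hL0 m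
    rw [lt_div_iff₀ (by positivity)] at hn
    have : (0 : ℝ) < (8⁻¹ : ℝ) ^ n := by positivity
    nlinarith
  choose n hn using h2
  have hδ0 : ∀ m, (0 : ℝ) < (8⁻¹ : ℝ) ^ n m := fun m => by positivity
  have hδ1 : ∀ m, (8⁻¹ : ℝ) ^ n m ≤ 1 := fun m => pow_le_one₀ (by norm_num) (by norm_num)
  set F : ℕ → (ℂ ≃ₜ ℂ) := fun m => Fm (Gm m) (hδ0 m) (hδ1 m) with hF
  obtain ⟨f, hf1, hf2, hf3⟩ := exists_glue (F := F) (b := fun m => ((bc n m : ℝ) : ℂ))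
    (fun i j hij => bc_sep n i j hij) (bc_tendsto n)
    (fun m => Fm_off (Gm_nice m).off (hδ0 m) (hδ1 m))
    (fun m => Fm_lip (Gm_nice m).off (hL m) (hδ0 m) (hδ1 m) (hn m))
    (fun m => Fm_ae (Gm_nice m) (hδ0 m) (hδ1 m))
  set E : Set ℂ := {z | ∃ (m : ℕ) (ε : ℕ → Bool),
    z = ((bc n m + (8⁻¹ : ℝ) ^ n m * Pt (1 / 8) m ε : ℝ) : ℂ)} with hE
  have hfE : ∀ m (ε : ℕ → Bool), f ((bc n m + (8⁻¹ : ℝ) ^ n m * Pt (1 / 8) m ε : ℝ) : ℂ) =
      ((bc n m : ℝ) : ℂ) + ((((8⁻¹ : ℝ) ^ n m) ^ 3 : ℝ) : ℂ) * ((Pt (1 / 6) m ε : ℝ) : ℂ) := by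
    intro m ε
    have e : ((bc n m + (8⁻¹ : ℝ) ^ n m * Pt (1 / 8) m ε : ℝ) : ℂ) - ((bc n m : ℝ) : ℂ) =
        (((8⁻¹ : ℝ) ^ n m * Pt (1 / 8) m ε : ℝ) : ℂ) := by push_cast; ring
    have hP := Pt_abs (x := 1 / 8) (by norm_num) (by norm_num) m ε
    have hnorm : ‖(((8⁻¹ : ℝ) ^ n m * Pt (1 / 8) m ε : ℝ) : ℂ)‖ ≤ (8⁻¹ : ℝ) ^ n m * (3 / 5) := by
      rw [Complex.norm_real, Real.norm_eq_abs, abs_mul, abs_of_pos (hδ0 m)]
      exact mul_le_mul_of_nonneg_left hP (hδ0 m).le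
    have h3 := hδ0 m
    have h4 := hδ1 m
    rw [hf1 m _ (by rw [e]; linarith), e]
    congr 1
    simp only [hF]
    rw [Fm_low (Gm_nice m).off (hδ0 m) (hδ1 m) (by linarith)]
    congr 1
    have e2 : (((8⁻¹ : ℝ) ^ n m * Pt (1 / 8) m ε : ℝ) : ℂ) * ((((8⁻¹ : ℝ) ^ n m)⁻¹ : ℝ) : ℂ) =
        ((Pt (1 / 8) m ε : ℝ) : ℂ) := by
      rw [← Complex.ofReal_mul]
      congr 1
      field_simp
    rw [e2, Gm_pt]
  refine ⟨f, E, ?_, hf3, ?_, ?_⟩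
  · apply LipschitzWith.of_dist_le_mul
    intro z w
    rw [dist_eq_norm, dist_eq_norm]
    exact hf2 z w
  · apply digits_cover
    rintro z ⟨m, ε, rfl⟩
    obtain ⟨S, hS⟩ := digits n m ε
    exact ⟨S, by rw [hS]⟩
  · intro α C hC h
    apply exponent (A := f '' E) (σ := fun m => ((8⁻¹ : ℝ) ^ n m) ^ 3)
      (b := fun m => ((bc n m : ℝ) : ℂ)) (fun m => by positivity) (fun m ε => ?_) h hC
    exact ⟨_, ⟨m, ε, rfl⟩, hfE m ε⟩

end Pool.Agent.X202.QC
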