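import Pool.Agent.X202.QC.Ins

/-! The maps `F` and their glueing. -/

set_option autoImplicit false
open Complex MeasureTheory Filter Topology Metric Set
open scoped ComplexConjugate NNReal

namespace Pool.Agent.X202.QC

/-- a strongly contracting map with a copy of `G` in the centre -/
noncomputable def Fm (G : ℂ ≃ₜ ℂ) {δ : ℝ} (h0 : 0 < δ) (h1 : δ ≤ 1) : ℂ ≃ₜ ℂ :=
  (ins 0 h0 G).trans (c h0 h1)

theorem Fm_low {G : ℂ ≃ₜ ℂ} (hG : IdOff G) {δ : ℝ} (h0 : 0 < δ) (h1 : δ ≤ 1) {w : ℂ}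
    (hw : ‖w‖ ≤ δ) : Fm G h0 h1 w = ((δ ^ 3 : ℝ) : ℂ) * G (w * ((δ⁻¹ : ℝ) : ℂ)) := by
  have e1 : ins 0 h0 G w = (δ : ℂ) * G (w * ((δ⁻¹ : ℝ) : ℂ)) := by
    rw [ins_apply]; simp
  change c h0 h1 (ins 0 h0 G w) = _
  have n : ‖w * ((δ⁻¹ : ℝ) : ℂ)‖ ≤ 1 := by
    have := norm_scaled 0 w h0
    rw [sub_zero] at this
    rw [this, div_le_one h0]; exact hw
  rw [e1, c_low]
  · push_cast; ring
  · rw [norm_mul, Complex.norm_real, Real.norm_eq_abs, abs_of_pos h0]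
    have := idOff_le hG n
    nlinarith

theorem Fm_high {G : ℂ ≃ₜ ℂ} (hG : IdOff G) {δ : ℝ} (h0 : 0 < δ) (h1 : δ ≤ 1) {w : ℂ}
    (hw : δ ≤ ‖w‖) : Fm G h0 h1 w = c h0 h1 w := by
  change c h0 h1 (ins 0 h0 G w) = _
  rw [ins_off 0 h0 hG (by simpa using hw)]

theorem Fm_eq {G : ℂ ≃ₜ ℂ} (hG : IdOff G) {δ : ℝ} (h0 : 0 < δ) (h1 : δ ≤ 1) (w : ℂ) :
    Fm G h0 h1 w = c h0 h1 w + ((δ ^ 2 : ℝ) : ℂ) * (ins 0 h0 G w - w) := by
  rcases le_or_gt δ ‖w‖ with h | h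
  · rw [Fm_high hG h0 h1 h, ins_off 0 h0 hG (by simpa using h)]; simp
  · rw [Fm_low hG h0 h1 h.le, c_low h0 h1 h.le, ins_apply]
    simp only [sub_zero, zero_add]
    push_cast
    ring

theorem Fm_lip {G : ℂ ≃ₜ ℂ} (hG : IdOff G) {L : ℝ} (hL : ∀ z w, ‖G z - G w‖ ≤ L * ‖z - w‖)
    {δ : ℝ} (h0 : 0 < δ) (h1 : δ ≤ 1) (hδ : δ * L ≤ 1) (z w : ℂ) :
    ‖Fm G h0 h1 z - Fm G h0 h1 w‖ ≤ 5 * ‖z - w‖ := by
  rw [Fm_eq hG, Fm_eq hG]
  have e : c h0 h1 z + ((δ ^ 2 : ℝ) : ℂ) * (ins 0 h0 G z - z) -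
      (c h0 h1 w + ((δ ^ 2 : ℝ) : ℂ) * (ins 0 h0 G w - w)) =
      (c h0 h1 z - c h0 h1 w) + (((δ ^ 2 : ℝ) : ℂ) * (ins 0 h0 G z - ins 0 h0 G w) -
        ((δ ^ 2 : ℝ) : ℂ) * (z - w)) := by ring
  rw [e]
  have a1 := c_lip h0 h1 z w
  have a2 : ‖((δ ^ 2 : ℝ) : ℂ) * (ins 0 h0 G z - ins 0 h0 G w)‖ ≤ 1 * ‖z - w‖ := by
    rw [norm_mul, Complex.norm_real, Real.norm_eq_abs, abs_of_pos (by positivity)]
    calc δ ^ 2 * ‖ins 0 h0 G z - ins 0 h0 G w‖ ≤ δ ^ 2 * (L * ‖z - w‖) :=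
          mul_le_mul_of_nonneg_left (ins_lip _ _ hL _ _) (by positivity)
      _ = δ * ((δ * L) * ‖z - w‖) := by ring
      _ ≤ 1 * (1 * ‖z - w‖) := by
          rcases le_or_gt 0 L with hL0 | hL0
          · apply mul_le_mul h1 _ (by positivity) zero_le_one
            exact mul_le_mul_of_nonneg_right hδ (norm_nonneg _)
          · have : δ * L ≤ 0 := by nlinarith
            have h2 : (δ * L) * ‖z - w‖ ≤ 0 := mul_nonpos_of_nonpos_of_nonneg this (norm_nonneg _)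
            have h3 : δ * ((δ * L) * ‖z - w‖) ≤ 0 := mul_nonpos_of_nonneg_of_nonpos h0.le h2
            linarith [norm_nonneg (z - w)]
      _ = 1 * ‖z - w‖ := by ring
  have a3 : ‖((δ ^ 2 : ℝ) : ℂ) * (z - w)‖ ≤ 1 * ‖z - w‖ := by
    rw [norm_mul, Complex.norm_real, Real.norm_eq_abs, abs_of_pos (by positivity)]
    apply mul_le_mul_of_nonneg_right _ (norm_nonneg _)
    exact pow_le_one₀ h0.le h1
  have a4 := norm_add_le (c h0 h1 z - c h0 h1 w)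
    (((δ ^ 2 : ℝ) : ℂ) * (ins 0 h0 G z - ins 0 h0 G w) - ((δ ^ 2 : ℝ) : ℂ) * (z - w))
  have a5 := norm_sub_le (((δ ^ 2 : ℝ) : ℂ) * (ins 0 h0 G z - ins 0 h0 G w))
    (((δ ^ 2 : ℝ) : ℂ) * (z - w))
  linarith

theorem Fm_off {G : ℂ ≃ₜ ℂ} (hG : IdOff G) {δ : ℝ} (h0 : 0 < δ) (h1 : δ ≤ 1) :
    IdOff (Fm G h0 h1) := fun z hz => by
  rw [Fm_high hG h0 h1 (h1.trans hz), c_off h0 h1 hz]

theorem Fm_ae {G : ℂ ≃ₜ ℂ} (hG : Nice G) {δ : ℝ} (h0 : 0 < δ) (h1 : δ ≤ 1) :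
    ∀ᵐ z, Q 5 (Fm G h0 h1) z := by
  have q1 := ae_aff hG.ae 0 (show δ⁻¹ ≠ 0 by positivity)
  filter_upwards [q1, ae_sphere 0 δ, ae_sphere 0 1] with z p s1 s2
  simp only [sub_zero] at s1 s2
  rcases lt_or_gt_of_ne s1 with h | h
  · refine (Q.aff (a := 0) (b := 0) (c := δ ^ 3) (ρ := δ⁻¹) p).congr ?_
    filter_upwards [(open_lt δ 0).mem_nhds (show z ∈ {w : ℂ | ‖w - 0‖ < δ} by simpa using h)]
      with w hw
    rw [Fm_low hG.off h0 h1 (by simpa using (le_of_lt hw))]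
    simp
  · refine (c_Q h0 h1 h s2).congr ?_
    filter_upwards [(open_gt δ 0).mem_nhds (show z ∈ {w : ℂ | δ < ‖w - 0‖} by simpa using h)]
      with w hw
    exact Fm_high hG.off h0 h1 (by simpa using (le_of_lt hw))

open scoped Classical in
/-- glueing of maps supported in disjoint unit discs -/
noncomputable def glueFun (F : ℕ → ℂ → ℂ) (b : ℕ → ℂ) (z : ℂ) : ℂ :=
  if h : ∃ j, ‖z - b j‖ < 1 then b h.choose + F h.choose (z - b h.choose) else z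

theorem glue_in {F : ℕ → ℂ → ℂ} {b : ℕ → ℂ} (hb : ∀ i j, i ≠ j → 2 ≤ ‖b i - b j‖) {j : ℕ}
    {z : ℂ} (hz : ‖z - b j‖ < 1) : glueFun F b z = b j + F j (z - b j) := by
  have h : ∃ j, ‖z - b j‖ < 1 := ⟨j, hz⟩
  have e : h.choose = j := by
    by_contra hne
    have h1 := hb _ _ hne
    have h2 := h.choose_spec
    have h3 : ‖b h.choose - b j‖ ≤ ‖z - b j‖ + ‖z - b h.choose‖ := by
      calc ‖b h.choose - b j‖ = ‖(z - b j) - (z - b h.choose)‖ := by congr 1; ring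
        _ ≤ _ := norm_sub_le _ _
    linarith
  unfold glueFun
  rw [dif_pos h, e]

theorem glue_out {F : ℕ → ℂ → ℂ} {b : ℕ → ℂ} {z : ℂ} (hz : ∀ j, 1 ≤ ‖z - b j‖) :
    glueFun F b z = z := by
  unfold glueFun
  rw [dif_neg]
  rintro ⟨j, hj⟩
  exact absurd hj (not_lt.2 (hz j))

theorem glue_comp {F : ℕ → (ℂ ≃ₜ ℂ)} {b : ℕ → ℂ} (hb : ∀ i j, i ≠ j → 2 ≤ ‖b i - b j‖)
    (hF : ∀ j, IdOff (F j)) (z : ℂ) :
    glueFun (fun j => (F j).symm) b (glueFun (fun j => F j) b z) = z := by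
  by_cases h : ∃ j, ‖z - b j‖ < 1
  · obtain ⟨j, hj⟩ := h
    rw [glue_in hb hj]
    have h1 : ‖b j + F j (z - b j) - b j‖ < 1 := by
      rw [add_sub_cancel_left]; exact idOff_lt (hF j) hj
    rw [glue_in hb h1, add_sub_cancel_left, Homeomorph.symm_apply_apply]
    ring
  · have h' : ∀ j, 1 ≤ ‖z - b j‖ := fun j => by
      by_contra hc
      exact h ⟨j, not_le.1 hc⟩
    rw [glue_out h', glue_out h']

theorem symm_off {G : ℂ ≃ₜ ℂ} (hG : IdOff G) : IdOff G.symm := fun z hz => by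
  conv_lhs => rw [← hG z hz]
  exact G.symm_apply_apply z

theorem glue_bij {F : ℕ → (ℂ ≃ₜ ℂ)} {b : ℕ → ℂ} (hb : ∀ i j, i ≠ j → 2 ≤ ‖b i - b j‖)
    (hF : ∀ j, IdOff (F j)) : Function.Bijective (glueFun (fun j => F j) b) := by
  rw [Function.bijective_iff_has_inverse]
  refine ⟨glueFun (fun j => (F j).symm) b, fun z => glue_comp hb hF z, fun z => ?_⟩
  have := glue_comp (F := fun j => (F j).symm) hb (fun j => symm_off (hF j)) z
  exact this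

theorem glue_sub_lip {F : ℕ → (ℂ ≃ₜ ℂ)} {b : ℕ → ℂ} (hb : ∀ i j, i ≠ j → 2 ≤ ‖b i - b j‖)
    (hF : ∀ j, IdOff (F j)) (hL : ∀ j z w, ‖F j z - F j w‖ ≤ 5 * ‖z - w‖) (z w : ℂ) :
    ‖glueFun (fun j => F j) b z - glueFun (fun j => F j) b w‖ ≤ 13 * ‖z - w‖ := by
  -- the functions `u j`
  set u : ℕ → ℂ → ℂ := fun j z => F j (z - b j) - (z - b j) with hu
  have hu0 : ∀ j z, 1 ≤ ‖z - b j‖ → u j z = 0 := fun j z h => by
    simp only [hu]; rw [hF j _ h, sub_self]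
  have huL : ∀ j z w, ‖u j z - u j w‖ ≤ 6 * ‖z - w‖ := fun j z w => by
    simp only [hu]
    have e : F j (z - b j) - (z - b j) - (F j (w - b j) - (w - b j)) =
        (F j (z - b j) - F j (w - b j)) - (z - w) := by ring
    rw [e]
    have h1 := hL j (z - b j) (w - b j)
    have e2 : z - b j - (w - b j) = z - w := by ring
    rw [e2] at h1
    have h2 := norm_sub_le (F j (z - b j) - F j (w - b j)) (z - w)
    linarith
  have hrep : ∀ z, ∃ j, glueFun (fun j => F j) b z = z + u j z ∧ ∀ i, i ≠ j → u i z = 0 := by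
    intro z
    by_cases h : ∃ j, ‖z - b j‖ < 1
    · obtain ⟨j, hj⟩ := h
      refine ⟨j, ?_, fun i hi => hu0 i z ?_⟩
      · rw [glue_in hb hj]; simp only [hu]; ring
      · by_contra hc
        have h1 := hb i j hi
        have h3 : ‖b i - b j‖ ≤ ‖z - b j‖ + ‖z - b i‖ := by
          calc ‖b i - b j‖ = ‖(z - b j) - (z - b i)‖ := by congr 1; ring
            _ ≤ _ := norm_sub_le _ _
        linarith [not_le.1 hc]
    · have h' : ∀ j, 1 ≤ ‖z - b j‖ := fun j => by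
        by_contra hc
        exact h ⟨j, not_le.1 hc⟩
      exact ⟨0, by rw [glue_out h', hu0 0 z (h' 0), add_zero], fun i _ => hu0 i z (h' i)⟩
  obtain ⟨i, hi, hi'⟩ := hrep z
  obtain ⟨j, hj, hj'⟩ := hrep w
  rw [hi, hj]
  by_cases hij : i = j
  · subst hij
    have e : z + u i z - (w + u i w) = (z - w) + (u i z - u i w) := by ring
    rw [e]
    have := norm_add_le (z - w) (u i z - u i w)
    linarith [huL i z w, norm_nonneg (z - w)]
  · have e : z + u i z - (w + u j w) = (z - w) + ((u i z - u i w) + (u j z - u j w)) := by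
      rw [hi' j (fun h => hij h.symm), hj' i hij]; ring
    rw [e]
    have h1 := norm_add_le (z - w) ((u i z - u i w) + (u j z - u j w))
    have h2 := norm_add_le (u i z - u i w) (u j z - u j w)
    linarith [huL i z w, huL j z w]

/-- the glued homeomorphism -/
theorem exists_glue {F : ℕ → (ℂ ≃ₜ ℂ)} {b : ℕ → ℂ} (hb : ∀ i j, i ≠ j → 2 ≤ ‖b i - b j‖)
    (hbt : Tendsto (fun j => ‖b j‖) atTop atTop)
    (hF : ∀ j, IdOff (F j)) (hL : ∀ j z w, ‖F j z - F j w‖ ≤ 5 * ‖z - w‖)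
    (hae : ∀ j, ∀ᵐ z, Q 5 (F j) z) :
    ∃ f : ℂ ≃ₜ ℂ, (∀ j z, ‖z - b j‖ < 1 → f z = b j + F j (z - b j)) ∧
      (∀ z w, ‖f z - f w‖ ≤ 13 * ‖z - w‖) ∧ ∀ᵐ z, Q 5 f z := by
  have hlip := glue_sub_lip hb hF hL
  have hcont : Continuous (glueFun (fun j => F j) b) := by
    have : LipschitzWith 13 (glueFun (fun j => F j) b) :=
      LipschitzWith.of_dist_le_mul fun z w => by
        rw [dist_eq_norm, dist_eq_norm]
        exact hlip z w
    exact this.continuous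
  have hdisp : ∃ C : ℝ, ∀ z, ‖glueFun (fun j => F j) b z - z‖ ≤ C := by
    refine ⟨2, fun z => ?_⟩
    by_cases h : ∃ j, ‖z - b j‖ < 1
    · obtain ⟨j, hj⟩ := h
      rw [glue_in hb hj]
      have e : b j + F j (z - b j) - z = F j (z - b j) - (z - b j) := by ring
      rw [e]
      have h1 := norm_sub_le (F j (z - b j)) (z - b j)
      have h2 := idOff_lt (hF j) hj
      linarith
    · have h' : ∀ j, 1 ≤ ‖z - b j‖ := fun j => by
        by_contra hc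
        exact h ⟨j, not_le.1 hc⟩
      rw [glue_out h', sub_self, norm_zero]; norm_num
  refine ⟨homeoOf _ (glue_bij hb hF) hcont hdisp, fun j z hz => glue_in (F := fun j => F j) hb hz, hlip, ?_⟩
  have q1 : ∀ᵐ z : ℂ, ∀ j, Q 5 (F j) ((z - b j) * ((1 : ℝ) : ℂ)) :=
    ae_all_iff.2 fun j => ae_aff (hae j) (b j) one_ne_zero
  have q2 : ∀ᵐ z : ℂ, ∀ j, ‖z - b j‖ ≠ 1 := ae_all_iff.2 fun j => ae_sphere (b j) 1
  filter_upwards [q1, q2] with z p s
  by_cases h : ∃ j, ‖z - b j‖ < 1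
  · obtain ⟨j, hj⟩ := h
    refine (Q.aff (a := b j) (b := b j) (c := 1) (ρ := 1) (p j)).congr ?_
    filter_upwards [(open_lt 1 (b j)).mem_nhds hj] with w hw
    change glueFun (fun j => F j) b w = _
    rw [glue_in hb hw]; simp
  · have h' : ∀ j, 1 < ‖z - b j‖ := fun j => by
      by_contra hc
      exact h ⟨j, lt_of_le_of_ne (not_lt.1 hc) (s j)⟩
    refine (Q_id (K := 5) (by norm_num) z).congr ?_
    obtain ⟨J, hJ⟩ := (hbt.eventually_ge_atTop (‖z‖ + 2)).exists_forall_of_atTop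
    have f1 : ∀ᶠ w in 𝓝 z, ∀ j ∈ Finset.range J, 1 < ‖w - b j‖ := by
      rw [Filter.eventually_all_finset]
      intro j _
      exact (open_gt 1 (b j)).mem_nhds (h' j)
    have f2 : ∀ᶠ w in 𝓝 z, ‖w - z‖ < 1 := (open_lt 1 z).mem_nhds (by simp)
    filter_upwards [f1, f2] with w w1 w2
    change glueFun (fun j => F j) b w = _
    apply glue_out
    intro j
    by_cases hjJ : j < J
    · exact (w1 j (Finset.mem_range.2 hjJ)).le
    · have h3 := hJ j (not_lt.1 hjJ)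
      have h4 : ‖b j‖ ≤ ‖w - b j‖ + ‖w‖ := by
        calc ‖b j‖ = ‖(w - b j) - w‖ := by rw [← norm_neg]; congr 1; ring
          _ ≤ _ := norm_sub_le _ _
      have h5 : ‖w‖ ≤ ‖z‖ + ‖w - z‖ := by
        calc ‖w‖ = ‖z + (w - z)‖ := by congr 1; ring
          _ ≤ _ := norm_add_le _ _
      linarith

end Pool.Agent.X202.QC
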