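import Pool.Agent.X202.QC.Pro

/-! Insertion of a homeomorphism into a disc; the iterated maps. -/

set_option autoImplicit false
open Complex MeasureTheory Filter Topology Metric Set
open scoped ComplexConjugate NNReal

namespace Pool.Agent.X202.QC

/-- the homeomorphism `G`, transported to the disc with centre `a` and radius `ρ` -/
noncomputable def ins (a : ℂ) {ρ : ℝ} (hρ : 0 < ρ) (G : ℂ ≃ₜ ℂ) : ℂ ≃ₜ ℂ where
  toFun z := a + (ρ : ℂ) * G ((z - a) * ((ρ⁻¹ : ℝ) : ℂ))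
  invFun z := a + (ρ : ℂ) * G.symm ((z - a) * ((ρ⁻¹ : ℝ) : ℂ))
  left_inv z := by
    have h : (ρ : ℂ) ≠ 0 := by exact_mod_cast hρ.ne'
    have e : (a + (ρ : ℂ) * G ((z - a) * ((ρ⁻¹ : ℝ) : ℂ)) - a) * ((ρ⁻¹ : ℝ) : ℂ) =
        G ((z - a) * ((ρ⁻¹ : ℝ) : ℂ)) := by
      push_cast; field_simp; ring
    simp only
    rw [e, Homeomorph.symm_apply_apply]
    push_cast; field_simp; ring
  right_inv z := by
    have h : (ρ : ℂ) ≠ 0 := by exact_mod_cast hρ.ne'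
    have e : (a + (ρ : ℂ) * G.symm ((z - a) * ((ρ⁻¹ : ℝ) : ℂ)) - a) * ((ρ⁻¹ : ℝ) : ℂ) =
        G.symm ((z - a) * ((ρ⁻¹ : ℝ) : ℂ)) := by
      push_cast; field_simp; ring
    simp only
    rw [e, Homeomorph.apply_symm_apply]
    push_cast; field_simp; ring
  continuous_toFun := by
    have := G.continuous
    fun_prop
  continuous_invFun := by
    have := G.symm.continuous
    fun_prop

theorem ins_apply (a : ℂ) {ρ : ℝ} (hρ : 0 < ρ) (G : ℂ ≃ₜ ℂ) (z : ℂ) :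
    ins a hρ G z = a + (ρ : ℂ) * G ((z - a) * ((ρ⁻¹ : ℝ) : ℂ)) := rfl

theorem norm_scaled (a z : ℂ) {ρ : ℝ} (hρ : 0 < ρ) :
    ‖(z - a) * ((ρ⁻¹ : ℝ) : ℂ)‖ = ‖z - a‖ / ρ := by
  rw [norm_mul, Complex.norm_real, Real.norm_eq_abs, abs_of_pos (by positivity), div_eq_mul_inv]

/-- identity off the unit disc -/
def IdOff (G : ℂ ≃ₜ ℂ) : Prop := ∀ z, 1 ≤ ‖z‖ → G z = z

theorem ins_off (a : ℂ) {ρ : ℝ} (hρ : 0 < ρ) {G : ℂ ≃ₜ ℂ} (hG : IdOff G) {z : ℂ}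
    (hz : ρ ≤ ‖z - a‖) : ins a hρ G z = z := by
  have h : (ρ : ℂ) ≠ 0 := by exact_mod_cast hρ.ne'
  rw [ins_apply, hG _ (by rw [norm_scaled a z hρ, le_div_iff₀ hρ]; linarith)]
  push_cast; field_simp; ring

theorem idOff_lt {G : ℂ ≃ₜ ℂ} (hG : IdOff G) {z : ℂ} (hz : ‖z‖ < 1) : ‖G z‖ < 1 := by
  by_contra h
  have h1 := hG (G z) (not_lt.1 h)
  have h2 := G.injective h1
  rw [h2] at h
  exact h hz

theorem idOff_le {G : ℂ ≃ₜ ℂ} (hG : IdOff G) {z : ℂ} (hz : ‖z‖ ≤ 1) : ‖G z‖ ≤ 1 := by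
  rcases lt_or_eq_of_le hz with h | h
  · exact (idOff_lt hG h).le
  · rw [hG z h.ge]; exact hz

theorem ins_lip (a : ℂ) {ρ : ℝ} (hρ : 0 < ρ) {G : ℂ ≃ₜ ℂ} {L : ℝ}
    (hL : ∀ z w, ‖G z - G w‖ ≤ L * ‖z - w‖) (z w : ℂ) :
    ‖ins a hρ G z - ins a hρ G w‖ ≤ L * ‖z - w‖ := by
  rw [ins_apply, ins_apply]
  have e : a + (ρ : ℂ) * G ((z - a) * ((ρ⁻¹ : ℝ) : ℂ)) -
      (a + (ρ : ℂ) * G ((w - a) * ((ρ⁻¹ : ℝ) : ℂ))) =
      (ρ : ℂ) * (G ((z - a) * ((ρ⁻¹ : ℝ) : ℂ)) - G ((w - a) * ((ρ⁻¹ : ℝ) : ℂ))) := by ring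
  rw [e, norm_mul, Complex.norm_real, Real.norm_eq_abs, abs_of_pos hρ]
  have h1 := hL ((z - a) * ((ρ⁻¹ : ℝ) : ℂ)) ((w - a) * ((ρ⁻¹ : ℝ) : ℂ))
  have e2 : (z - a) * ((ρ⁻¹ : ℝ) : ℂ) - (w - a) * ((ρ⁻¹ : ℝ) : ℂ) =
      (z - w) * ((ρ⁻¹ : ℝ) : ℂ) := by ring
  rw [e2, norm_scaled w z hρ] at h1
  calc ρ * ‖_‖ ≤ ρ * (L * (‖z - w‖ / ρ)) := mul_le_mul_of_nonneg_left h1 hρ.le
    _ = L * ‖z - w‖ := by field_simp

/-- the class of maps used in the construction -/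
structure Nice (G : ℂ ≃ₜ ℂ) : Prop where
  off : IdOff G
  lip : ∃ L : ℝ, 0 ≤ L ∧ ∀ z w, ‖G z - G w‖ ≤ L * ‖z - w‖
  ae : ∀ᵐ z, Q 5 G z

theorem ae_aff {p : ℂ → Prop} (h : ∀ᵐ w : ℂ, p w) (b : ℂ) {r : ℝ} (hr : r ≠ 0) :
    ∀ᵐ z : ℂ, p ((z - b) * (r : ℂ)) := by
  rw [ae_iff] at h ⊢
  have e : {z : ℂ | ¬ p ((z - b) * (r : ℂ))} =
      (fun z : ℂ => z + -b) ⁻¹' ((fun z : ℂ => r • z) ⁻¹' {w | ¬ p w}) := by
    ext z
    simp only [mem_setOf_eq, mem_preimage, real_smul]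
    rw [← sub_eq_add_neg, mul_comm]
  rw [e, measure_preimage_add_right, Measure.addHaar_preimage_smul volume hr, h, mul_zero]

theorem ae_sphere (a : ℂ) (r : ℝ) : ∀ᵐ z : ℂ, ‖z - a‖ ≠ r := by
  rw [ae_iff]
  have e : {z : ℂ | ¬ ‖z - a‖ ≠ r} = sphere a r := by
    ext z
    simp [mem_sphere, dist_eq_norm]
  rw [e]
  exact Measure.addHaar_sphere volume a r

/-- one step of the construction -/
noncomputable def step (G : ℂ ≃ₜ ℂ) : ℂ ≃ₜ ℂ :=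
  ((ins (-1 / 2) (show (0 : ℝ) < 1 / 8 by norm_num) G).trans
    (ins (1 / 2) (show (0 : ℝ) < 1 / 8 by norm_num) G)).trans
  ((ins (-1 / 2) (show (0 : ℝ) < 1 / 2 by norm_num) g).trans
    (ins (1 / 2) (show (0 : ℝ) < 1 / 2 by norm_num) g))

theorem g_idOff : IdOff g := fun _ h => g_off h

theorem dist_ge (z : ℂ) : 1 - ‖z - (-1 / 2)‖ ≤ ‖z - 1 / 2‖ := by
  have h : ‖(1 : ℂ)‖ ≤ ‖z - (-1 / 2)‖ + ‖z - 1 / 2‖ := by
    calc ‖(1 : ℂ)‖ = ‖(z - (-1 / 2)) - (z - 1 / 2)‖ := by congr 1; ring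
      _ ≤ _ := norm_sub_le _ _
  rw [norm_one] at h
  linarith

theorem step_in {G : ℂ ≃ₜ ℂ} (hG : IdOff G) {a z : ℂ} (ha : a = 1 / 2 ∨ a = -1 / 2)
    (hz : ‖z - a‖ < 1 / 8) :
    step G z = a + ((1 / 6 : ℝ) : ℂ) * G ((z - a) * ((8 : ℝ) : ℂ)) := by
  have hw : ‖(z - a) * (((1 / 8 : ℝ)⁻¹ : ℝ) : ℂ)‖ < 1 := by
    rw [norm_scaled a z (by norm_num)]
    rw [div_lt_one (by norm_num)]; exact hz
  have h8 : (((1 / 8 : ℝ)⁻¹ : ℝ) : ℂ) = ((8 : ℝ) : ℂ) := by norm_num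
  have h2 : (((1 / 2 : ℝ)⁻¹ : ℝ) : ℂ) = 2 := by norm_num
  have hGw := idOff_lt hG hw
  set u : ℂ := G ((z - a) * (((1 / 8 : ℝ)⁻¹ : ℝ) : ℂ)) with hu
  have e1 : ins a (show (0 : ℝ) < 1 / 8 by norm_num) G z = a + ((1 / 8 : ℝ) : ℂ) * u := rfl
  have n1 : ‖a + ((1 / 8 : ℝ) : ℂ) * u - a‖ ≤ 1 / 8 := by
    rw [add_sub_cancel_left, norm_mul, Complex.norm_real, Real.norm_eq_abs,
      abs_of_pos (by norm_num)]
    linarith
  have e2 : ins a (show (0 : ℝ) < 1 / 2 by norm_num) g (a + ((1 / 8 : ℝ) : ℂ) * u) =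
      a + ((1 / 6 : ℝ) : ℂ) * u := by
    rw [ins_apply, add_sub_cancel_left, g_low, h2]
    · push_cast; ring
    · rw [norm_mul, norm_mul, h2, Complex.norm_real, Real.norm_eq_abs,
        abs_of_pos (by norm_num)]
      norm_num
      linarith
  have n2 : ‖a + ((1 / 6 : ℝ) : ℂ) * u - a‖ ≤ 1 / 6 := by
    rw [add_sub_cancel_left, norm_mul, Complex.norm_real, Real.norm_eq_abs,
      abs_of_pos (by norm_num)]
    linarith
  have key : step G z = ins (1 / 2) (show (0 : ℝ) < 1 / 2 by norm_num) g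
      (ins (-1 / 2) (show (0 : ℝ) < 1 / 2 by norm_num) g
      (ins (1 / 2) (show (0 : ℝ) < 1 / 8 by norm_num) G
      (ins (-1 / 2) (show (0 : ℝ) < 1 / 8 by norm_num) G z))) := rfl
  rw [key, ← h8, ← hu]
  rcases ha with rfl | rfl
  · have d1 := dist_ge z
    rw [ins_off (-1 / 2) _ hG (by linarith), e1]
    have d2 := dist_ge (1 / 2 + ((1 / 8 : ℝ) : ℂ) * u)
    rw [ins_off (-1 / 2) _ g_idOff (by linarith), e2]
  · have d2 := dist_ge (-1 / 2 + ((1 / 8 : ℝ) : ℂ) * u)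
    rw [e1, ins_off (1 / 2) _ hG (by linarith), e2]
    have d3 := dist_ge (-1 / 2 + ((1 / 6 : ℝ) : ℂ) * u)
    rw [ins_off (1 / 2) _ g_idOff (by linarith)]

theorem step_mid {G : ℂ ≃ₜ ℂ} (hG : IdOff G) {a z : ℂ} (ha : a = 1 / 2 ∨ a = -1 / 2)
    (hz : 1 / 8 ≤ ‖z - a‖) (hz2 : ‖z - a‖ < 1 / 2) :
    step G z = a + ((1 / 2 : ℝ) : ℂ) * g ((z - a) * ((2 : ℝ) : ℂ)) := by
  have h2 : (((1 / 2 : ℝ)⁻¹ : ℝ) : ℂ) = ((2 : ℝ) : ℂ) := by norm_num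
  have key : step G z = ins (1 / 2) (show (0 : ℝ) < 1 / 2 by norm_num) g
      (ins (-1 / 2) (show (0 : ℝ) < 1 / 2 by norm_num) g
      (ins (1 / 2) (show (0 : ℝ) < 1 / 8 by norm_num) G
      (ins (-1 / 2) (show (0 : ℝ) < 1 / 8 by norm_num) G z))) := rfl
  have d1 := dist_ge z
  have hin : ‖ins a (show (0 : ℝ) < 1 / 2 by norm_num) g z - a‖ < 1 / 2 := by
    rw [ins_apply, add_sub_cancel_left, norm_mul, Complex.norm_real, Real.norm_eq_abs,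
      abs_of_pos (by norm_num)]
    have := idOff_lt g_idOff (z := (z - a) * (((1 / 2 : ℝ)⁻¹ : ℝ) : ℂ)) (by
      rw [norm_scaled a z (by norm_num), div_lt_one (by norm_num)]; exact hz2)
    linarith
  rw [key, ← h2]
  rcases ha with rfl | rfl
  · rw [ins_off (-1 / 2) _ hG (by linarith), ins_off (1 / 2) _ hG hz,
      ins_off (-1 / 2) _ g_idOff (by linarith), ins_apply]
  · rw [ins_off (-1 / 2) _ hG hz, ins_off (1 / 2) _ hG (by linarith)]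
    have d3 := dist_ge (ins (-1 / 2) (show (0 : ℝ) < 1 / 2 by norm_num) g z)
    rw [ins_off (1 / 2) _ g_idOff (by linarith), ins_apply]

theorem step_out {G : ℂ ≃ₜ ℂ} (hG : IdOff G) {z : ℂ}
    (h1 : 1 / 2 ≤ ‖z - 1 / 2‖) (h2 : 1 / 2 ≤ ‖z - (-1 / 2)‖) : step G z = z := by
  have key : step G z = ins (1 / 2) (show (0 : ℝ) < 1 / 2 by norm_num) g
      (ins (-1 / 2) (show (0 : ℝ) < 1 / 2 by norm_num) g
      (ins (1 / 2) (show (0 : ℝ) < 1 / 8 by norm_num) G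
      (ins (-1 / 2) (show (0 : ℝ) < 1 / 8 by norm_num) G z))) := rfl
  rw [key, ins_off (-1 / 2) _ hG (by linarith), ins_off (1 / 2) _ hG (by linarith),
    ins_off (-1 / 2) _ g_idOff h2, ins_off (1 / 2) _ g_idOff h1]

theorem step_nice {G : ℂ ≃ₜ ℂ} (hG : Nice G) : Nice (step G) := by
  refine ⟨fun z hz => ?_, ?_, ?_⟩
  · have n : ‖(1 / 2 : ℂ)‖ = 1 / 2 := by norm_num
    have n' : ‖(-1 / 2 : ℂ)‖ = 1 / 2 := by rw [neg_div, norm_neg, n]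
    apply step_out hG.off
    · have : ‖z‖ ≤ ‖z - 1 / 2‖ + ‖(1 / 2 : ℂ)‖ := by
        calc ‖z‖ = ‖(z - 1 / 2) + 1 / 2‖ := by congr 1; ring
          _ ≤ _ := norm_add_le _ _
      linarith
    · have : ‖z‖ ≤ ‖z - (-1 / 2)‖ + ‖(-1 / 2 : ℂ)‖ := by
        calc ‖z‖ = ‖(z - (-1 / 2)) + (-1 / 2)‖ := by congr 1; ring
          _ ≤ _ := norm_add_le _ _
      linarith
  · obtain ⟨L, hL0, hL⟩ := hG.lip
    refine ⟨3 * (3 * (L * L)), by positivity, fun z w => ?_⟩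
    have key : ∀ z, step G z = ins (1 / 2) (show (0 : ℝ) < 1 / 2 by norm_num) g
      (ins (-1 / 2) (show (0 : ℝ) < 1 / 2 by norm_num) g
      (ins (1 / 2) (show (0 : ℝ) < 1 / 8 by norm_num) G
      (ins (-1 / 2) (show (0 : ℝ) < 1 / 8 by norm_num) G z))) := fun _ => rfl
    rw [key, key]
    refine (ins_lip _ _ g_lip _ _).trans ?_
    rw [mul_assoc]
    refine mul_le_mul_of_nonneg_left ?_ (by norm_num)
    refine (ins_lip _ _ g_lip _ _).trans ?_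
    rw [mul_assoc]
    refine mul_le_mul_of_nonneg_left ?_ (by norm_num)
    refine (ins_lip _ _ hL _ _).trans ?_
    rw [mul_assoc]
    refine mul_le_mul_of_nonneg_left ?_ hL0
    exact ins_lip _ _ hL _ _
  · have q1 := ae_aff hG.ae (1 / 2) (show (8 : ℝ) ≠ 0 by norm_num)
    have q2 := ae_aff hG.ae (-1 / 2) (show (8 : ℝ) ≠ 0 by norm_num)
    filter_upwards [q1, q2, ae_sphere (1 / 2) (1 / 8), ae_sphere (-1 / 2) (1 / 8),
      ae_sphere (1 / 2) (1 / 2), ae_sphere (-1 / 2) (1 / 2)] with z p1 p2 s1 s2 s3 s4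
    have main : ∀ a : ℂ, a = 1 / 2 ∨ a = -1 / 2 → Q 5 G ((z - a) * ((8 : ℝ) : ℂ)) →
        ‖z - a‖ ≠ 1 / 8 → ‖z - a‖ < 1 / 2 → Q 5 (step G) z := by
      intro a ha hp hs hlt
      rcases lt_or_gt_of_ne hs with h | h
      · refine (Q.aff (a := a) (b := a) (c := 1 / 6) (ρ := 8) hp).congr ?_
        filter_upwards [(open_lt (1 / 8) a).mem_nhds h] with w hw
        exact step_in hG.off ha hw
      · refine (Q.aff (a := a) (b := a) (c := 1 / 2) (ρ := 2) (G := g) (K := 5) ?_).congr ?_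
        · have n : ‖(z - a) * ((2 : ℝ) : ℂ)‖ = ‖z - a‖ * 2 := by
            rw [norm_mul, Complex.norm_real]; norm_num
          apply g_Q
          · rw [n]
            intro h'
            linarith
          · rw [n]
            intro h'
            linarith
        · filter_upwards [(open_lt (1 / 2) a).mem_nhds hlt, (open_gt (1 / 8) a).mem_nhds h]
            with w hw hw'
          exact step_mid hG.off ha (le_of_lt hw') hw
    rcases lt_or_gt_of_ne s3 with h | h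
    · exact main _ (Or.inl rfl) p1 s1 h
    rcases lt_or_gt_of_ne s4 with h' | h'
    · exact main _ (Or.inr rfl) p2 s2 h'
    · refine (Q_id (K := 5) (by norm_num) z).congr ?_
      filter_upwards [(open_gt (1 / 2) (1 / 2)).mem_nhds h, (open_gt (1 / 2) (-1 / 2)).mem_nhds h']
        with w hw hw'
      exact step_out hG.off (le_of_lt hw) (le_of_lt hw')

/-- the iterated maps -/
noncomputable def Gm : ℕ → (ℂ ≃ₜ ℂ)
  | 0 => Homeomorph.refl ℂ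
  | m + 1 => step (Gm m)

theorem Gm_nice (m : ℕ) : Nice (Gm m) := by
  induction m with
  | zero =>
    refine ⟨fun z _ => rfl, ⟨1, zero_le_one, fun z w => by rw [one_mul]; exact le_rfl⟩, ?_⟩
    exact Eventually.of_forall fun z => Q_id (K := 5) (by norm_num) z
  | succ m ih => exact step_nice ih

end Pool.Agent.X202.QC
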