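import Pool.Agent.X202.QC.Rad

/-! The two radial profiles. -/

set_option autoImplicit false
open Complex MeasureTheory Filter Topology Metric Set
open scoped ComplexConjugate NNReal

namespace Pool.Agent.X202.QC

/-- clamp to `[δ, 1]` -/
noncomputable def cl (δ t : ℝ) : ℝ := max δ (min t 1)

theorem cl_cont (δ : ℝ) : Continuous (cl δ) := by unfold cl; fun_prop

theorem cl_ge (δ t : ℝ) : δ ≤ cl δ t := le_max_left _ _

theorem cl_le {δ : ℝ} (h : δ ≤ 1) (t : ℝ) : cl δ t ≤ 1 := max_le h (min_le_right _ _)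

theorem cl_mono (δ : ℝ) : Monotone (cl δ) := fun _ _ h =>
  max_le_max le_rfl (min_le_min h le_rfl)

theorem cl_lip (δ s t : ℝ) : |cl δ s - cl δ t| ≤ |s - t| := by
  unfold cl
  calc |max δ (min s 1) - max δ (min t 1)| ≤ |min s 1 - min t 1| := by
        have := abs_max_sub_max_le_abs (min s 1) (min t 1) δ
        rwa [max_comm, max_comm (min t 1)] at this
    _ ≤ |s - t| := by
        have := abs_min_sub_min_le_max s 1 t 1
        simpa using this

theorem cl_one {δ : ℝ} (h : δ ≤ 1) {t : ℝ} (ht : 1 ≤ t) : cl δ t = 1 := by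
  unfold cl; rw [min_eq_right ht, max_eq_right h]

theorem cl_low {δ : ℝ} {t : ℝ} (ht : t ≤ δ) : cl δ t = δ := by
  unfold cl; exact max_eq_left ((min_le_left _ _).trans ht)

theorem cl_mid {δ : ℝ} {t : ℝ} (h1 : δ ≤ t) (h2 : t ≤ 1) : cl δ t = t := by
  unfold cl; rw [min_eq_left h2, max_eq_right h1]

/-- expanding profile -/
noncomputable def pg (t : ℝ) : ℝ := (61 - 16 * cl (1 / 4) t ^ 2) / 45

/-- contracting profile -/
noncomputable def pc (δ t : ℝ) : ℝ := cl δ t ^ 2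

theorem prof_g : Prof pg := by
  refine ⟨?_, fun t => ?_, ?_, fun t ht => ?_⟩
  · have := cl_cont (1 / 4)
    unfold pg; fun_prop
  · have h1 := cl_ge (1 / 4) t
    have h2 := cl_le (show (1 / 4 : ℝ) ≤ 1 by norm_num) t
    unfold pg
    have : 0 < 61 - 16 * cl (1 / 4) t ^ 2 := by nlinarith
    positivity
  · intro t ht t' _ htt
    have ht0 : (0 : ℝ) ≤ t := ht
    simp only [pg]
    set s := cl (1 / 4) t with hs
    set s' := cl (1 / 4) t' with hs'
    have h0 : 1 / 4 ≤ s := cl_ge _ _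
    have h1 : s ≤ s' := cl_mono _ htt.le
    have h2 : s' ≤ 1 := cl_le (by norm_num) _
    have h3 : s' - s ≤ t' - t := by
      have := cl_lip (1 / 4) t' t
      rw [abs_of_pos (sub_pos.2 htt)] at this
      exact (le_abs_self _).trans this
    rcases le_or_gt t 1 with h4 | h4
    · have h5 : t * (s' ^ 2 - s ^ 2) ≤ 2 * (t' - t) := by
        have e1 : s' ^ 2 - s ^ 2 = (s' - s) * (s' + s) := by ring
        have e2 : 0 ≤ s' ^ 2 - s ^ 2 := by rw [e1]; apply mul_nonneg <;> linarith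
        calc t * (s' ^ 2 - s ^ 2) ≤ 1 * (s' ^ 2 - s ^ 2) := mul_le_mul_of_nonneg_right h4 e2
          _ = (s' - s) * (s' + s) := by rw [e1]; ring
          _ ≤ (t' - t) * 2 := mul_le_mul h3 (by linarith) (by linarith) (by linarith)
          _ = 2 * (t' - t) := by ring
      have h6 : s' ^ 2 ≤ 1 := by nlinarith
      have h7 : (t' - t) * 45 ≤ (t' - t) * (61 - 16 * s' ^ 2) :=
        mul_le_mul_of_nonneg_left (by linarith) (by linarith)
      have h8 : t' * (61 - 16 * s' ^ 2) - t * (61 - 16 * s ^ 2) =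
        (t' - t) * (61 - 16 * s' ^ 2) - 16 * (t * (s' ^ 2 - s ^ 2)) := by ring
      have h9 : t * (61 - 16 * s ^ 2) < t' * (61 - 16 * s' ^ 2) := by linarith
      calc t * ((61 - 16 * s ^ 2) / 45) = t * (61 - 16 * s ^ 2) / 45 := by ring
        _ < t' * (61 - 16 * s' ^ 2) / 45 := by linarith
        _ = t' * ((61 - 16 * s' ^ 2) / 45) := by ring
    · have e1 : s = 1 := cl_one (by norm_num) h4.le
      have e2 : s' = 1 := cl_one (by norm_num) (by linarith)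
      rw [e1, e2]
      linarith
  · unfold pg
    rw [cl_one (by norm_num) ht]; norm_num

theorem prof_c {δ : ℝ} (h0 : 0 < δ) (h1 : δ ≤ 1) : Prof (pc δ) := by
  refine ⟨?_, fun t => ?_, ?_, fun t ht => ?_⟩
  · have := cl_cont δ
    unfold pc; fun_prop
  · have := cl_ge δ t
    unfold pc
    have : 0 < cl δ t := by linarith
    positivity
  · intro t ht t' _ htt
    have ht0 : (0 : ℝ) ≤ t := ht
    simp only [pc]
    have a1 : δ ≤ cl δ t := cl_ge _ _
    have a2 : cl δ t ≤ cl δ t' := cl_mono _ htt.le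
    have a3 : 0 < cl δ t' ^ 2 := by
      have : 0 < cl δ t' := by linarith
      positivity
    calc t * cl δ t ^ 2 ≤ t * cl δ t' ^ 2 :=
          mul_le_mul_of_nonneg_left (pow_le_pow_left₀ (by linarith) a2 2) ht0
      _ < t' * cl δ t' ^ 2 := mul_lt_mul_of_pos_right htt a3
  · unfold pc
    rw [cl_one h1 ht]; norm_num

/-- the expanding radial homeomorphism -/
noncomputable def g : ℂ ≃ₜ ℂ := prof_g.homeo

/-- the contracting radial homeomorphism -/
noncomputable def c {δ : ℝ} (h0 : 0 < δ) (h1 : δ ≤ 1) : ℂ ≃ₜ ℂ := (prof_c h0 h1).homeo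

theorem sq_diff {δ : ℝ} (h0 : 0 ≤ δ) (h1 : δ ≤ 1) (s t : ℝ) :
    |cl δ s ^ 2 - cl δ t ^ 2| ≤ 2 * |s - t| := by
  have a1 := cl_ge δ s
  have a2 := cl_ge δ t
  have a3 := cl_le h1 s
  have a4 := cl_le h1 t
  have e : cl δ s ^ 2 - cl δ t ^ 2 = (cl δ s + cl δ t) * (cl δ s - cl δ t) := by ring
  rw [e, abs_mul, abs_of_nonneg (by linarith)]
  exact mul_le_mul (by linarith) (cl_lip δ s t) (abs_nonneg _) (by norm_num)

theorem g_lip (z w : ℂ) : ‖g z - g w‖ ≤ 3 * ‖z - w‖ := by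
  have h := prof_g.lip (A := 2) (B := 1) (fun t => by
    unfold pg
    have := sq_nonneg (cl (1 / 4) t)
    linarith) zero_le_one (fun s t => by
    have := sq_diff (δ := 1 / 4) (by norm_num) (by norm_num) s t
    have e : pg s - pg t = -(16 / 45) * (cl (1 / 4) s ^ 2 - cl (1 / 4) t ^ 2) := by
      unfold pg; ring
    rw [e, abs_mul, abs_neg, abs_of_pos (by norm_num : (0 : ℝ) < 16 / 45)]
    linarith [abs_nonneg (s - t)]) z w
  calc _ ≤ _ := h
    _ = _ := by norm_num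

theorem c_lip {δ : ℝ} (h0 : 0 < δ) (h1 : δ ≤ 1) (z w : ℂ) :
    ‖c h0 h1 z - c h0 h1 w‖ ≤ 3 * ‖z - w‖ := by
  have h := (prof_c h0 h1).lip (A := 1) (B := 2) (fun t => by
    unfold pc
    have := cl_le h1 t
    have := cl_ge δ t
    nlinarith) zero_le_two (fun s t => sq_diff h0.le h1 s t) z w
  calc _ ≤ _ := h
    _ = _ := by norm_num

theorem g_low {z : ℂ} (h : ‖z‖ ≤ 1 / 4) : g z = ((4 / 3 : ℝ) : ℂ) * z := by
  change ((pg ‖z‖ : ℝ) : ℂ) * z = _
  congr 2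
  unfold pg
  rw [cl_low h]; norm_num

theorem c_low {δ : ℝ} (h0 : 0 < δ) (h1 : δ ≤ 1) {z : ℂ} (h : ‖z‖ ≤ δ) :
    c h0 h1 z = ((δ ^ 2 : ℝ) : ℂ) * z := by
  change ((pc δ ‖z‖ : ℝ) : ℂ) * z = _
  congr 2
  unfold pc
  rw [cl_low h]

theorem g_off {z : ℂ} (h : 1 ≤ ‖z‖) : g z = z := prof_g.off h

theorem c_off {δ : ℝ} (h0 : 0 < δ) (h1 : δ ≤ 1) {z : ℂ} (h : 1 ≤ ‖z‖) : c h0 h1 z = z :=
  (prof_c h0 h1).off h

theorem Q_mul {K : ℝ} (hK : 1 ≤ K) (a z : ℂ) : Q K (fun w => a * w) z := by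
  have h := hasFDerivAt_cubic a 0 z
  have e : (fun w : ℂ => a * w + 0 * (w ^ 2 * conj w)) = fun w => a * w := by
    funext w; ring
  rw [e] at h
  refine Q_lin h ?_
  simp only [mul_zero, zero_mul, add_zero, norm_zero, sub_zero]
  nlinarith [norm_nonneg a]

theorem Q_id {K : ℝ} (hK : 1 ≤ K) (z : ℂ) : Q K (fun w => w) z := by
  have := Q_mul hK 1 z
  simpa using this

theorem open_lt (r : ℝ) (a : ℂ) : IsOpen {w : ℂ | ‖w - a‖ < r} :=
  isOpen_lt (by fun_prop) continuous_const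

theorem open_gt (r : ℝ) (a : ℂ) : IsOpen {w : ℂ | r < ‖w - a‖} :=
  isOpen_lt continuous_const (by fun_prop)

theorem g_mid {w : ℂ} (h1 : 1 / 4 ≤ ‖w‖) (h2 : ‖w‖ ≤ 1) :
    g w = (61 / 45 : ℂ) * w + (-16 / 45 : ℂ) * (w ^ 2 * conj w) := by
  change ((pg ‖w‖ : ℝ) : ℂ) * w = _
  have e : (w : ℂ) * conj w = ((‖w‖ ^ 2 : ℝ) : ℂ) := by
    rw [Complex.mul_conj, Complex.normSq_eq_norm_sq]
  unfold pg
  rw [cl_mid h1 h2]
  have e2 : w ^ 2 * conj w = w * ((‖w‖ ^ 2 : ℝ) : ℂ) := by rw [← e]; ring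
  rw [e2]
  push_cast
  ring

theorem c_mid {δ : ℝ} (h0 : 0 < δ) (hδ : δ ≤ 1) {w : ℂ} (h1 : δ ≤ ‖w‖) (h2 : ‖w‖ ≤ 1) :
    c h0 hδ w = (0 : ℂ) * w + (1 : ℂ) * (w ^ 2 * conj w) := by
  change ((pc δ ‖w‖ : ℝ) : ℂ) * w = _
  have e : (w : ℂ) * conj w = ((‖w‖ ^ 2 : ℝ) : ℂ) := by
    rw [Complex.mul_conj, Complex.normSq_eq_norm_sq]
  unfold pc
  rw [cl_mid h1 h2]
  have e2 : w ^ 2 * conj w = w * ((‖w‖ ^ 2 : ℝ) : ℂ) := by rw [← e]; ring
  rw [e2]
  push_cast
  ring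

theorem g_Q {z : ℂ} (h1 : ‖z‖ ≠ 1 / 4) (h2 : ‖z‖ ≠ 1) : Q 5 g z := by
  rcases lt_or_gt_of_ne h1 with h | h
  · refine (Q_mul (K := 5) (by norm_num) ((4 / 3 : ℝ) : ℂ) z).congr ?_
    filter_upwards [(open_lt (1 / 4) 0).mem_nhds (show z ∈ {w : ℂ | ‖w - 0‖ < 1 / 4} by
      simpa using h)] with w hw
    exact g_low (by simpa using (le_of_lt hw))
  rcases lt_or_gt_of_ne h2 with h' | h'
  · have hd := hasFDerivAt_cubic (61 / 45) (-16 / 45) z
    refine (Q_lin (K := 5) hd ?_).congr ?_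
    · have e : (z : ℂ) * conj z = ((‖z‖ ^ 2 : ℝ) : ℂ) := by
        rw [Complex.mul_conj, Complex.normSq_eq_norm_sq]
      have e1 : (61 / 45 : ℂ) + 2 * (-16 / 45) * (z * conj z) =
          (((61 - 32 * ‖z‖ ^ 2) / 45 : ℝ) : ℂ) := by
        rw [e]; push_cast; ring
      have n1 : ‖(61 / 45 : ℂ) + 2 * (-16 / 45) * (z * conj z)‖ = (61 - 32 * ‖z‖ ^ 2) / 45 := by
        rw [e1, Complex.norm_real, Real.norm_eq_abs, abs_of_nonneg]
        have : ‖z‖ ^ 2 ≤ 1 := by nlinarith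
        linarith
      have n2 : ‖(-16 / 45 : ℂ) * z ^ 2‖ = 16 / 45 * ‖z‖ ^ 2 := by
        rw [norm_mul, norm_pow]
        congr 1
        rw [norm_div, norm_neg]
        norm_num
      rw [n1, n2]
      have : ‖z‖ ^ 2 ≤ 1 := by nlinarith
      nlinarith
    · filter_upwards [(open_lt 1 0).mem_nhds (show z ∈ {w : ℂ | ‖w - 0‖ < 1} by simpa using h'),
        (open_gt (1 / 4) 0).mem_nhds (show z ∈ {w : ℂ | 1 / 4 < ‖w - 0‖} by simpa using h)]
        with w hw hw'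
      exact g_mid (by simpa using (le_of_lt hw')) (by simpa using (le_of_lt hw))
  · refine (Q_id (K := 5) (by norm_num) z).congr ?_
    filter_upwards [(open_gt 1 0).mem_nhds (show z ∈ {w : ℂ | 1 < ‖w - 0‖} by simpa using h')]
      with w hw
    exact g_off (by simpa using (le_of_lt hw))

theorem c_Q {δ : ℝ} (h0 : 0 < δ) (hδ : δ ≤ 1) {z : ℂ} (h1 : δ < ‖z‖) (h2 : ‖z‖ ≠ 1) :
    Q 5 (c h0 hδ) z := by
  rcases lt_or_gt_of_ne h2 with h' | h'
  · have hd := hasFDerivAt_cubic 0 1 z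
    refine (Q_lin (K := 5) hd ?_).congr ?_
    · have e : (z : ℂ) * conj z = ((‖z‖ ^ 2 : ℝ) : ℂ) := by
        rw [Complex.mul_conj, Complex.normSq_eq_norm_sq]
      have e1 : (0 : ℂ) + 2 * 1 * (z * conj z) = ((2 * ‖z‖ ^ 2 : ℝ) : ℂ) := by
        rw [e]; push_cast; ring
      have n1 : ‖(0 : ℂ) + 2 * 1 * (z * conj z)‖ = 2 * ‖z‖ ^ 2 := by
        rw [e1, Complex.norm_real, Real.norm_eq_abs, abs_of_nonneg (by positivity)]
      have n2 : ‖(1 : ℂ) * z ^ 2‖ = ‖z‖ ^ 2 := by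
        rw [one_mul, norm_pow]
      rw [n1, n2]
      nlinarith [sq_nonneg ‖z‖]
    · filter_upwards [(open_lt 1 0).mem_nhds (show z ∈ {w : ℂ | ‖w - 0‖ < 1} by simpa using h'),
        (open_gt δ 0).mem_nhds (show z ∈ {w : ℂ | δ < ‖w - 0‖} by simpa using h1)]
        with w hw hw'
      exact c_mid h0 hδ (by simpa using (le_of_lt hw')) (by simpa using (le_of_lt hw))
  · refine (Q_id (K := 5) (by norm_num) z).congr ?_
    filter_upwards [(open_gt 1 0).mem_nhds (show z ∈ {w : ℂ | 1 < ‖w - 0‖} by simpa using h')]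
      with w hw
    exact c_off h0 hδ (by simpa using (le_of_lt hw))

end Pool.Agent.X202.QC
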