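import Pool.Agent.X202.QC.Glue
import Pool.Agent.X202.QC.Dig

/-! The points, and the Assouad dimensions. -/

set_option autoImplicit false
open Complex MeasureTheory Filter Topology Metric Set
open scoped ComplexConjugate NNReal

namespace Pool.Agent.X202.QC

/-- coefficients -/
noncomputable def eb (t : Bool) : ℝ := if t then 1 / 2 else -1 / 2

/-- the points -/
noncomputable def Pt (x : ℝ) (m : ℕ) (ε : ℕ → Bool) : ℝ := ∑ i ∈ Finset.range m, eb (ε i) * x ^ i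

theorem eb_abs (t : Bool) : |eb t| = 1 / 2 := by
  cases t
  · simp only [eb, Bool.false_eq_true, if_false]; norm_num [abs_of_neg]
  · simp only [eb, if_true]; norm_num

theorem Pt_succ (x : ℝ) (m : ℕ) (ε : ℕ → Bool) :
    Pt x (m + 1) ε = eb (ε 0) + x * Pt x m (fun i => ε (i + 1)) := by
  unfold Pt
  rw [Finset.sum_range_succ', Finset.mul_sum, pow_zero, mul_one, add_comm]
  congr 1
  apply Finset.sum_congr rfl
  intro i _
  ring

theorem Pt_abs {x : ℝ} (h0 : 0 ≤ x) (h1 : x ≤ 1 / 6) (m : ℕ) (ε : ℕ → Bool) :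
    |Pt x m ε| ≤ 3 / 5 := by
  induction m generalizing ε with
  | zero => simp [Pt]; norm_num
  | succ m ih =>
    rw [Pt_succ]
    have h2 := ih fun i => ε (i + 1)
    have h3 := abs_add_le (eb (ε 0)) (x * Pt x m fun i => ε (i + 1))
    rw [eb_abs, abs_mul, abs_of_nonneg h0] at h3
    have h4 : x * |Pt x m fun i => ε (i + 1)| ≤ 1 / 6 * (3 / 5) :=
      mul_le_mul h1 h2 (abs_nonneg _) (by norm_num)
    linarith

theorem Pt_sep (m : ℕ) (ε ε' : ℕ → Bool) (h : ∃ i < m, ε i ≠ ε' i) :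
    (1 / 6 : ℝ) ^ m ≤ |Pt (1 / 6) m ε - Pt (1 / 6) m ε'| := by
  induction m generalizing ε ε' with
  | zero => obtain ⟨i, hi, _⟩ := h; omega
  | succ m ih =>
    rw [Pt_succ, Pt_succ]
    by_cases h0 : ε 0 = ε' 0
    · have h1 : ∃ i < m, (fun i => ε (i + 1)) i ≠ (fun i => ε' (i + 1)) i := by
        obtain ⟨i, hi, hne⟩ := h
        rcases Nat.eq_zero_or_pos i with h2 | h2
        · subst h2; exact absurd h0 hne
        · refine ⟨i - 1, by omega, ?_⟩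
          have : i - 1 + 1 = i := by omega
          simp only [this]
          exact hne
      have h2 := ih _ _ h1
      rw [h0]
      have e : eb (ε' 0) + 1 / 6 * Pt (1 / 6) m (fun i => ε (i + 1)) -
          (eb (ε' 0) + 1 / 6 * Pt (1 / 6) m (fun i => ε' (i + 1))) =
          1 / 6 * (Pt (1 / 6) m (fun i => ε (i + 1)) - Pt (1 / 6) m (fun i => ε' (i + 1))) := by
        ring
      rw [e, abs_mul, abs_of_pos (by norm_num : (0 : ℝ) < 1 / 6), pow_succ, mul_comm]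
      exact mul_le_mul_of_nonneg_left h2 (by norm_num)
    · have h1 := Pt_abs (x := 1 / 6) (by norm_num) le_rfl m fun i => ε (i + 1)
      have h2 := Pt_abs (x := 1 / 6) (by norm_num) le_rfl m fun i => ε' (i + 1)
      have h3 : |eb (ε 0) - eb (ε' 0)| = 1 := by
        cases hε : ε 0 <;> cases hε' : ε' 0 <;> simp [hε, hε'] at h0 <;> simp [eb] <;> norm_num
      have h4 : (1 / 6 : ℝ) ^ (m + 1) ≤ 1 / 6 := by
        have := pow_le_pow_of_le_one (show (0 : ℝ) ≤ 1 / 6 by norm_num) (by norm_num)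
          (show 1 ≤ m + 1 by omega)
        simpa using this
      have e : eb (ε 0) - eb (ε' 0) = (eb (ε 0) + 1 / 6 * Pt (1 / 6) m (fun i => ε (i + 1)) -
          (eb (ε' 0) + 1 / 6 * Pt (1 / 6) m (fun i => ε' (i + 1)))) +
          (1 / 6 * Pt (1 / 6) m (fun i => ε' (i + 1)) -
            1 / 6 * Pt (1 / 6) m (fun i => ε (i + 1))) := by ring
      have h5 := abs_add_le (eb (ε 0) + 1 / 6 * Pt (1 / 6) m (fun i => ε (i + 1)) -
          (eb (ε' 0) + 1 / 6 * Pt (1 / 6) m (fun i => ε' (i + 1))))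
          (1 / 6 * Pt (1 / 6) m (fun i => ε' (i + 1)) -
            1 / 6 * Pt (1 / 6) m (fun i => ε (i + 1)))
      rw [← e, h3] at h5
      have h6 := abs_sub (1 / 6 * Pt (1 / 6) m (fun i => ε' (i + 1)))
        (1 / 6 * Pt (1 / 6) m (fun i => ε (i + 1)))
      rw [abs_mul, abs_mul, abs_of_pos (by norm_num : (0 : ℝ) < 1 / 6)] at h6
      linarith

theorem eb_or (t : Bool) : ((eb t : ℝ) : ℂ) = 1 / 2 ∨ ((eb t : ℝ) : ℂ) = -1 / 2 := by
  cases t
  · right; simp [eb]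
  · left; simp [eb]

theorem Gm_pt (m : ℕ) (ε : ℕ → Bool) :
    Gm m ((Pt (1 / 8) m ε : ℝ) : ℂ) = ((Pt (1 / 6) m ε : ℝ) : ℂ) := by
  induction m generalizing ε with
  | zero => simp [Pt, Gm]
  | succ m ih =>
    have hz : ((Pt (1 / 8) (m + 1) ε : ℝ) : ℂ) - ((eb (ε 0) : ℝ) : ℂ) =
        ((1 / 8 * Pt (1 / 8) m (fun i => ε (i + 1)) : ℝ) : ℂ) := by
      rw [Pt_succ]; push_cast; ring
    have hn : ‖((Pt (1 / 8) (m + 1) ε : ℝ) : ℂ) - ((eb (ε 0) : ℝ) : ℂ)‖ < 1 / 8 := by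
      rw [hz, Complex.norm_real, Real.norm_eq_abs, abs_mul,
        abs_of_pos (by norm_num : (0 : ℝ) < 1 / 8)]
      have := Pt_abs (x := 1 / 8) (by norm_num) (by norm_num) m fun i => ε (i + 1)
      linarith
    change step (Gm m) _ = _
    rw [step_in (Gm_nice m).off (eb_or (ε 0)) hn, hz]
    have e : (((1 / 8 * Pt (1 / 8) m (fun i => ε (i + 1)) : ℝ) : ℂ) * ((8 : ℝ) : ℂ)) =
        ((Pt (1 / 8) m (fun i => ε (i + 1)) : ℝ) : ℂ) := by
      push_cast; ring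
    rw [e, ih, Pt_succ]
    push_cast; ring

/-- centres -/
noncomputable def bc (n : ℕ → ℕ) (m : ℕ) : ℝ :=
  8 ^ (m + 1) + (8⁻¹ : ℝ) ^ n m / 2 * ∑ i ∈ Finset.range m, (8⁻¹ : ℝ) ^ i

theorem geo_le (m : ℕ) : ∑ i ∈ Finset.range m, (8⁻¹ : ℝ) ^ i ≤ 8 / 7 := by
  rw [geom_sum_eq (by norm_num)]
  have : (0 : ℝ) ≤ (8⁻¹ : ℝ) ^ m := by positivity
  rw [div_le_iff_of_neg (by norm_num)]
  linarith

theorem bc_bounds (n : ℕ → ℕ) (m : ℕ) : (8 : ℝ) ^ (m + 1) ≤ bc n m ∧ bc n m ≤ 8 ^ (m + 1) + 1 := by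
  have h1 : (0 : ℝ) ≤ ∑ i ∈ Finset.range m, (8⁻¹ : ℝ) ^ i :=
    Finset.sum_nonneg fun i _ => by positivity
  have h2 := geo_le m
  have h3 : (0 : ℝ) < (8⁻¹ : ℝ) ^ n m := by positivity
  have h4 : (8⁻¹ : ℝ) ^ n m ≤ 1 := pow_le_one₀ (by norm_num) (by norm_num)
  unfold bc
  constructor
  · have : 0 ≤ (8⁻¹ : ℝ) ^ n m / 2 * ∑ i ∈ Finset.range m, (8⁻¹ : ℝ) ^ i := by positivity
    linarith
  · have : (8⁻¹ : ℝ) ^ n m / 2 * ∑ i ∈ Finset.range m, (8⁻¹ : ℝ) ^ i ≤ 1 / 2 * (8 / 7) :=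
      mul_le_mul (by linarith) h2 h1 (by norm_num)
    linarith

theorem bc_lt (n : ℕ → ℕ) {i j : ℕ} (h : i < j) : 2 ≤ bc n j - bc n i := by
  have h1 := (bc_bounds n j).1
  have h2 := (bc_bounds n i).2
  have h3 : (8 : ℝ) ^ (i + 1 + 1) ≤ 8 ^ (j + 1) := pow_le_pow_right₀ (by norm_num) (by omega)
  have h4 : (8 : ℝ) ^ (i + 1 + 1) = 8 * 8 ^ (i + 1) := by rw [pow_succ]; ring
  have h5 : (1 : ℝ) ≤ 8 ^ (i + 1) := one_le_pow₀ (by norm_num)
  linarith

theorem bc_sep (n : ℕ → ℕ) (i j : ℕ) (h : i ≠ j) :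
    2 ≤ ‖((bc n i : ℝ) : ℂ) - ((bc n j : ℝ) : ℂ)‖ := by
  rw [← Complex.ofReal_sub, Complex.norm_real, Real.norm_eq_abs]
  rcases lt_or_gt_of_ne h with h1 | h1
  · have := bc_lt n h1
    rw [abs_sub_comm]
    exact this.trans (le_abs_self _)
  · exact (bc_lt n h1).trans (le_abs_self _)

theorem bc_tendsto (n : ℕ → ℕ) : Tendsto (fun j => ‖((bc n j : ℝ) : ℂ)‖) atTop atTop := by
  have h1 : Tendsto (fun j : ℕ => (8 : ℝ) ^ j) atTop atTop :=
    tendsto_pow_atTop_atTop_of_one_lt (by norm_num)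
  refine tendsto_atTop_mono (fun j => ?_) h1
  rw [Complex.norm_real, Real.norm_eq_abs]
  have h2 := (bc_bounds n j).1
  have h3 : (8 : ℝ) ^ j ≤ 8 ^ (j + 1) := pow_le_pow_right₀ (by norm_num) (by omega)
  exact (h3.trans h2).trans (le_abs_self _)

/-- the points of `E` have digits `0, 1` in base `8` -/
theorem digits (n : ℕ → ℕ) (m : ℕ) (ε : ℕ → Bool) :
    ∃ S : Finset ℤ, bc n m + (8⁻¹ : ℝ) ^ n m * Pt (1 / 8) m ε = Y S := by
  classical
  set T : Finset ℕ := (Finset.range m).filter fun i => ε i = true with hT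
  set S0 : Finset ℤ := T.image fun i : ℕ => -(n m : ℤ) - i with hS0
  refine ⟨insert ((m : ℤ) + 1) S0, ?_⟩
  have h1 : ((m : ℤ) + 1) ∉ S0 := by
    rw [hS0, Finset.mem_image]
    rintro ⟨i, _, hi⟩
    omega
  have h2 : Y (insert ((m : ℤ) + 1) S0) = 8 ^ (m + 1) + ∑ i ∈ T, (8 : ℝ) ^ (-(n m : ℤ) - i) := by
    unfold Y
    rw [Finset.sum_insert h1, hS0, Finset.sum_image]
    · congr 1
    · intro i _ j _ h
      simp only at h
      omega
  rw [h2, hT, Finset.sum_filter]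
  unfold bc Pt
  rw [add_assoc]
  congr 1
  rw [div_mul_eq_mul_div, mul_div_assoc, ← mul_add, Finset.sum_div, ← Finset.sum_add_distrib,
    Finset.mul_sum]
  apply Finset.sum_congr rfl
  intro i _
  have e : (8 : ℝ) ^ (-(n m : ℤ) - i) = (8⁻¹ : ℝ) ^ n m * (8⁻¹ : ℝ) ^ i := by
    rw [← pow_add, inv_pow, ← zpow_natCast, ← zpow_neg]
    congr 1
    push_cast
    ring
  cases hε : ε i
  · simp [eb]; ring_nf
  · simp [eb]
    rw [e]
    simp
    ring

end Pool.Agent.X202.QC
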