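import Mathlib

/-! Radial homeomorphisms of the plane and the pointwise quasiconformality condition. -/

set_option autoImplicit false
open Complex MeasureTheory Filter Topology Metric Set
open scoped ComplexConjugate NNReal

namespace Pool.Agent.X202.QC

/-- a continuous bijection with bounded displacement is a homeomorphism -/
noncomputable def homeoOf (f : ℂ → ℂ) (hb : Function.Bijective f) (hc : Continuous f)
    (hd : ∃ C : ℝ, ∀ z, ‖f z - z‖ ≤ C) : ℂ ≃ₜ ℂ :=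
  (Equiv.ofBijective f hb).toHomeomorphOfContinuousClosed hc (by
    have h : Tendsto f (cocompact ℂ) (cocompact ℂ) := by
      obtain ⟨C, hC⟩ := hd
      rw [← Metric.cobounded_eq_cocompact]
      rw [← tendsto_norm_atTop_iff_cobounded]
      have h1 : Tendsto (fun z : ℂ => ‖z‖ - C) (Bornology.cobounded ℂ) atTop :=
        tendsto_atTop_add_const_right _ _ tendsto_norm_cobounded_atTop
      refine tendsto_atTop_mono (fun z => ?_) h1
      have h2 := hC z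
      have h3 : ‖z‖ ≤ ‖f z‖ + ‖f z - z‖ := by
        calc ‖z‖ = ‖f z - (f z - z)‖ := by congr 1; ring
          _ ≤ _ := norm_sub_le _ _
      linarith
    exact (isProperMap_iff_tendsto_cocompact.2 ⟨hc, h⟩).isClosedMap)

theorem homeoOf_apply (f : ℂ → ℂ) (hb : Function.Bijective f) (hc : Continuous f)
    (hd : ∃ C : ℝ, ∀ z, ‖f z - z‖ ≤ C) (z : ℂ) : homeoOf f hb hc hd z = f z := rfl

/-- radial profile -/
structure Prof (θ : ℝ → ℝ) : Prop where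
  cont : Continuous θ
  pos : ∀ t, 0 < θ t
  mono : StrictMonoOn (fun t => t * θ t) (Ici 0)
  one : ∀ t, 1 ≤ t → θ t = 1

theorem Prof.bij {θ : ℝ → ℝ} (h : Prof θ) :
    Function.Bijective (fun z : ℂ => (θ ‖z‖ : ℂ) * z) := by
  constructor
  · intro z w hzw
    simp only at hzw
    have h1 : ‖z‖ * θ ‖z‖ = ‖w‖ * θ ‖w‖ := by
      have := congrArg norm hzw
      rw [norm_mul, norm_mul, Complex.norm_real, Complex.norm_real, Real.norm_eq_abs,
        Real.norm_eq_abs, abs_of_pos (h.pos _), abs_of_pos (h.pos _)] at this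
      linarith
    have h2 : ‖z‖ = ‖w‖ := h.mono.injOn (norm_nonneg z) (norm_nonneg w) h1
    rw [h2] at hzw
    have h3 : (θ ‖w‖ : ℂ) ≠ 0 := by exact_mod_cast (h.pos _).ne'
    exact mul_left_cancel₀ h3 hzw
  · intro u
    rcases eq_or_ne u 0 with hu | hu
    · exact ⟨0, by simp [hu]⟩
    have hu' : 0 < ‖u‖ := norm_pos_iff.2 hu
    have hcont : ContinuousOn (fun t => t * θ t) (Icc 0 (max 1 ‖u‖)) :=
      (continuous_id.mul h.cont).continuousOn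
    have hmem : ‖u‖ ∈ Icc ((fun t => t * θ t) 0) ((fun t => t * θ t) (max 1 ‖u‖)) := by
      constructor
      · simp
      · simp only
        rw [h.one _ (le_max_left _ _), mul_one]
        exact le_max_right _ _
    obtain ⟨t, ht, hte⟩ := intermediate_value_Icc (le_trans zero_le_one (le_max_left _ _)) hcont hmem
    simp only at hte
    have ht0 : 0 ≤ t := ht.1
    refine ⟨((t / ‖u‖ : ℝ) : ℂ) * u, ?_⟩
    have hn : ‖((t / ‖u‖ : ℝ) : ℂ) * u‖ = t := by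
      rw [norm_mul, Complex.norm_real, Real.norm_eq_abs, abs_of_nonneg (by positivity)]
      field_simp
    simp only
    rw [hn, ← mul_assoc, ← Complex.ofReal_mul]
    have : θ t * (t / ‖u‖) = 1 := by
      rw [← mul_div_assoc, mul_comm, hte]
      field_simp
    rw [this]; simp

theorem Prof.disp {θ : ℝ → ℝ} (h : Prof θ) : ∃ C : ℝ, ∀ z : ℂ, ‖(θ ‖z‖ : ℂ) * z - z‖ ≤ C := by
  refine ⟨2, fun z => ?_⟩
  rcases le_or_gt 1 ‖z‖ with h1 | h1
  · rw [h.one _ h1]; simp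
  · have h2 : ‖z‖ * θ ‖z‖ < 1 := by
      have := h.mono (norm_nonneg z) (mem_Ici.2 zero_le_one) h1
      simp only at this
      rw [h.one 1 le_rfl] at this
      linarith
    calc ‖(θ ‖z‖ : ℂ) * z - z‖ ≤ ‖(θ ‖z‖ : ℂ) * z‖ + ‖z‖ := norm_sub_le _ _
      _ ≤ 2 := by
          rw [norm_mul, Complex.norm_real, Real.norm_eq_abs, abs_of_pos (h.pos _)]
          linarith

/-- the radial homeomorphism -/
noncomputable def Prof.homeo {θ : ℝ → ℝ} (h : Prof θ) : ℂ ≃ₜ ℂ :=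
  homeoOf (fun z : ℂ => (θ ‖z‖ : ℂ) * z) h.bij
    (by
      have := h.cont
      fun_prop) h.disp

theorem Prof.homeo_apply {θ : ℝ → ℝ} (h : Prof θ) (z : ℂ) : h.homeo z = (θ ‖z‖ : ℂ) * z := rfl

theorem Prof.off {θ : ℝ → ℝ} (h : Prof θ) {z : ℂ} (hz : 1 ≤ ‖z‖) : h.homeo z = z := by
  rw [h.homeo_apply, h.one _ hz]; simp

/-- Lipschitz bound for radial maps -/
theorem Prof.lip {θ : ℝ → ℝ} (h : Prof θ) {A B : ℝ} (hA : ∀ t, θ t ≤ A) (hB0 : 0 ≤ B)
    (hB : ∀ s t, |θ s - θ t| ≤ B * |s - t|) (z w : ℂ) :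
    ‖h.homeo z - h.homeo w‖ ≤ (A + B) * ‖z - w‖ := by
  wlog hzw : ‖w‖ ≤ ‖z‖ generalizing z w
  · rw [norm_sub_rev, norm_sub_rev z w]
    exact this w z (le_of_not_ge hzw)
  rw [h.homeo_apply, h.homeo_apply]
  have e : (θ ‖z‖ : ℂ) * z - θ ‖w‖ * w = (θ ‖z‖ : ℂ) * (z - w) + ((θ ‖z‖ - θ ‖w‖ : ℝ) : ℂ) * w := by
    push_cast; ring
  rw [e]
  have h1 : ‖(θ ‖z‖ : ℂ) * (z - w)‖ ≤ A * ‖z - w‖ := by
    rw [norm_mul, Complex.norm_real, Real.norm_eq_abs, abs_of_pos (h.pos _)]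
    exact mul_le_mul_of_nonneg_right (hA _) (norm_nonneg _)
  have h2 : ‖((θ ‖z‖ - θ ‖w‖ : ℝ) : ℂ) * w‖ ≤ B * ‖z - w‖ := by
    rw [norm_mul, Complex.norm_real, Real.norm_eq_abs]
    rcases le_or_gt 1 ‖w‖ with h3 | h3
    · rw [h.one _ h3, h.one _ (h3.trans hzw), sub_self, abs_zero, zero_mul]
      positivity
    · calc |θ ‖z‖ - θ ‖w‖| * ‖w‖ ≤ (B * |‖z‖ - ‖w‖|) * 1 :=
            mul_le_mul (hB _ _) h3.le (norm_nonneg _) (by positivity)
        _ ≤ B * ‖z - w‖ := by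
            rw [mul_one]
            exact mul_le_mul_of_nonneg_left (abs_norm_sub_norm_le z w) hB0
  calc _ ≤ _ := norm_add_le _ _
    _ ≤ A * ‖z - w‖ + B * ‖z - w‖ := add_le_add h1 h2
    _ = (A + B) * ‖z - w‖ := by ring

/-- pointwise condition -/
def Q (K : ℝ) (f : ℂ → ℂ) (z : ℂ) : Prop :=
  ∃ D : ℂ →L[ℝ] ℂ, HasFDerivAt f D z ∧ ‖D‖ ^ 2 ≤ K * D.det

theorem Q.congr {K : ℝ} {f g : ℂ → ℂ} {z : ℂ} (h : Q K g z) (hfg : f =ᶠ[𝓝 z] g) : Q K f z := by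
  obtain ⟨D, h1, h2⟩ := h
  exact ⟨D, h1.congr_of_eventuallyEq hfg, h2⟩

theorem det_smul (c : ℝ) (D : ℂ →L[ℝ] ℂ) : (c • D).det = c ^ 2 * D.det := by
  have : ((c • D : ℂ →L[ℝ] ℂ) : ℂ →ₗ[ℝ] ℂ) = c • (D : ℂ →ₗ[ℝ] ℂ) := rfl
  rw [ContinuousLinearMap.det, this, LinearMap.det_smul, Complex.finrank_real_complex]

theorem Q.aff {K : ℝ} {G : ℂ → ℂ} {a b : ℂ} {c ρ : ℝ} {z : ℂ}
    (h : Q K G ((z - b) * (ρ : ℂ))) : Q K (fun z => a + (c : ℂ) * G ((z - b) * (ρ : ℂ))) z := by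
  obtain ⟨D, h1, h2⟩ := h
  refine ⟨(c * ρ) • D, ?_, ?_⟩
  · have h3 : HasFDerivAt (fun z : ℂ => (z - b) * (ρ : ℂ)) (ρ • ContinuousLinearMap.id ℝ ℂ) z := by
      have h := ((hasFDerivAt_id (𝕜 := ℝ) z).sub_const b).mul_const' (ρ : ℂ)
      exact h.congr_fderiv (by ext v; simp [mul_comm])
    have h4 := ((h1.comp z h3).const_mul (c : ℂ)).const_add a
    exact h4.congr_fderiv (by ext v; simp [mul_assoc])
  · rw [norm_smul, mul_pow, det_smul, Real.norm_eq_abs, sq_abs]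
    calc (c * ρ) ^ 2 * ‖D‖ ^ 2 ≤ (c * ρ) ^ 2 * (K * D.det) :=
          mul_le_mul_of_nonneg_left h2 (by positivity)
      _ = K * ((c * ρ) ^ 2 * D.det) := by ring

/-- the linear map `v ↦ α v + β conj v` -/
noncomputable def lin (α β : ℂ) : ℂ →L[ℝ] ℂ :=
  α • ContinuousLinearMap.id ℝ ℂ + β • (Complex.conjCLE : ℂ →L[ℝ] ℂ)

theorem lin_apply (α β v : ℂ) : lin α β v = α * v + β * conj v := by
  simp [lin]

theorem lin_norm (α β : ℂ) : ‖lin α β‖ ≤ ‖α‖ + ‖β‖ := by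
  apply ContinuousLinearMap.opNorm_le_bound _ (by positivity)
  intro v
  rw [lin_apply]
  calc _ ≤ _ := norm_add_le _ _
    _ = (‖α‖ + ‖β‖) * ‖v‖ := by rw [norm_mul, norm_mul, Complex.norm_conj]; ring

theorem lin_det (α β : ℂ) : (lin α β).det = ‖α‖ ^ 2 - ‖β‖ ^ 2 := by
  rw [ContinuousLinearMap.det, ← LinearMap.det_toMatrix Complex.basisOneI, Matrix.det_fin_two]
  simp only [LinearMap.toMatrix_apply, Complex.coe_basisOneI_repr, Complex.coe_basisOneI,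
    ContinuousLinearMap.coe_coe, lin_apply]
  rw [← Complex.normSq_eq_norm_sq, ← Complex.normSq_eq_norm_sq, Complex.normSq_apply,
    Complex.normSq_apply]
  simp
  ring

theorem Q_lin {K : ℝ} {f : ℂ → ℂ} {z α β : ℂ} (h : HasFDerivAt f (lin α β) z)
    (h1 : ‖α‖ + ‖β‖ ≤ K * (‖α‖ - ‖β‖)) : Q K f z := by
  refine ⟨lin α β, h, ?_⟩
  rw [lin_det]
  have h2 := lin_norm α β
  calc ‖lin α β‖ ^ 2 ≤ (‖α‖ + ‖β‖) ^ 2 := pow_le_pow_left₀ (norm_nonneg _) h2 2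
    _ = (‖α‖ + ‖β‖) * (‖α‖ + ‖β‖) := by ring
    _ ≤ (K * (‖α‖ - ‖β‖)) * (‖α‖ + ‖β‖) := mul_le_mul_of_nonneg_right h1 (by positivity)
    _ = K * (‖α‖ ^ 2 - ‖β‖ ^ 2) := by ring

theorem hasFDerivAt_cubic (A B z : ℂ) :
    HasFDerivAt (fun w : ℂ => A * w + B * (w ^ 2 * conj w))
      (lin (A + 2 * B * (z * conj z)) (B * z ^ 2)) z := by
  have h0 : HasFDerivAt (fun w : ℂ => w) (ContinuousLinearMap.id ℝ ℂ) z := hasFDerivAt_id z
  have hc : HasFDerivAt (fun w : ℂ => conj w) (Complex.conjCLE : ℂ →L[ℝ] ℂ) z :=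
    Complex.conjCLE.hasFDerivAt
  have h2 : HasFDerivAt (fun w : ℂ => w ^ 2) ((2 * z) • ContinuousLinearMap.id ℝ ℂ) z := by
    have h := h0.mul h0
    have e : (fun w : ℂ => w ^ 2) = fun w => w * w := by funext w; ring
    rw [e]
    exact h.congr_fderiv (by ext v; simp; ring)
  have h1 := (h0.const_mul A).add ((h2.mul hc).const_mul B)
  exact h1.congr_fderiv (by ext v; simp [lin_apply]; ring)

end Pool.Agent.X202.QC
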